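import Pool.Agent.TH972.H.Local

/-!
# Closings, hits of the target, and escapes
-/

set_option autoImplicit false
set_option linter.unusedSectionVars false

namespace Pool.Agent.TH972.H

open Finset MeasureTheory Pool.Agent.W842.RST

noncomputable section

variable {n : ℕ}

section

variable (P : Prm n)

/-- the weight of a history is invariant under a change of the environment which preserves the
edges inside the history and the total conductances of its vertices -/
theorem wt_invariant {U U' : Ev n} (s : List (Fin n))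
    (hin : ∀ a ∈ s, ∀ b ∈ s, U s(a, b) = U' s(a, b))
    (hcs : ∀ a ∈ s, cs (Dt P U).κ a = cs (Dt P U').κ a) (y : Fin n) (s' : List (Fin n))
    (hs' : ∀ b ∈ y :: s', b ∈ s) : wt P U y s' = wt P U' y s' := by
  induction s' generalizing y with
  | nil => rfl
  | cons x t ih =>
    have hx : x ∈ s := hs' x (by simp)
    have hy : y ∈ s := hs' y (by simp)
    have ht : ∀ w ∈ t, w ∈ s := fun w hw => hs' w (by simp [hw])
    have h1 : stp (Dt P U) x t ↔ stp (Dt P U') x t :=
      stp_congr P (fun w hw => hin w (ht w hw) x hx)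
    have h2 := ih x (fun b hb => by
      rcases List.mem_cons.1 hb with h | h
      · rw [h]; exact hx
      · exact ht b h)
    have h3 : tr (Dt P U).κ x y = tr (Dt P U').κ x y := by
      unfold tr
      rw [Kc_congr P (hin x hx y hy), hcs x hx]
    unfold wt
    rw [h2, h3]
    by_cases hs : stp (Dt P U) x t
    · rw [if_pos hs, if_pos (h1.1 hs)]
    · rw [if_neg hs, if_neg (fun h' => hs (h1.2 h'))]

/-- the last step -/
theorem wt_step {U U' : Ev n} {x : Fin n} {t : List (Fin n)}
    (hin : ∀ a ∈ x :: t, ∀ b ∈ x :: t, U s(a, b) = U' s(a, b))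
    (hcs : ∀ a ∈ x :: t, cs (Dt P U).κ a = cs (Dt P U').κ a) {y y' : Fin n}
    (hK : Kc (Dt P U).κ x y = Kc (Dt P U').κ x y') :
    wt P U y (x :: t) = wt P U' y' (x :: t) := by
  have h1 : stp (Dt P U) x t ↔ stp (Dt P U') x t :=
    stp_congr P (fun w hw => hin w (by simp [hw]) x (by simp))
  have h2 : wt P U x t = wt P U' x t := wt_invariant P (x :: t) hin hcs x t (fun b hb => hb)
  have h3 : tr (Dt P U).κ x y = tr (Dt P U').κ x y' := by
    unfold tr
    rw [hK, hcs x (by simp)]
  unfold wt
  rw [h2, h3]
  by_cases hs : stp (Dt P U) x t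
  · rw [if_pos hs, if_pos (h1.1 hs)]
  · rw [if_neg hs, if_neg (fun h' => hs (h1.2 h'))]

theorem Ex_swap {x y u w : Fin n} {t : List (Fin n)} (hw : w ∈ x :: t) (hwx : w ≠ x)
    (hy : y ∉ x :: t) (hu : u ∉ x :: t) :
    Ex (fun U => wt P U y (x :: t) * ind (U s(w, y) ≤ P.p1)) =
      Ex (fun U => wt P U y (x :: t) * ind (U s(w, u) ≤ P.p1)) := by
  classical
  by_cases hyu : y = u
  · rw [hyu]
  set σ : Equiv.Perm (Sym2 (Fin n)) := Equiv.swap s(w, y) s(w, u) with hσ
  have hwy : w ≠ y := fun h => hy (h ▸ hw)
  have hwu : w ≠ u := fun h => hu (h ▸ hw)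
  have hσ1 : σ s(w, y) = s(w, u) := Equiv.swap_apply_left _ _
  have hσ2 : σ s(w, u) = s(w, y) := Equiv.swap_apply_right _ _
  have hσ3 : ∀ a ∈ x :: t, ∀ c, a ≠ w → σ s(a, c) = s(a, c) := by
    intro a ha c hne
    apply Equiv.swap_apply_of_ne_of_ne
    · intro h
      rw [Sym2.eq_iff] at h
      rcases h with h | h
      · exact hne h.1
      · exact hy (h.1 ▸ ha)
    · intro h
      rw [Sym2.eq_iff] at h
      rcases h with h | h
      · exact hne h.1
      · exact hu (h.1 ▸ ha)
  have hσ4 : ∀ c, c ≠ y → c ≠ u → σ s(w, c) = s(w, c) := by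
    intro c h1 h2
    apply Equiv.swap_apply_of_ne_of_ne
    · intro h
      rw [Sym2.eq_iff] at h
      rcases h with h | h
      · exact h1 h.2
      · exact hwy h.1
    · intro h
      rw [Sym2.eq_iff] at h
      rcases h with h | h
      · exact h2 h.2
      · exact hwu h.1
  rw [← Ex_perm σ (fun U => wt P U y (x :: t) * ind (U s(w, u) ≤ P.p1))]
  apply Ex_congr
  intro U
  beta_reduce
  rw [hσ2]
  congr 1
  symm
  apply wt_step P
  · intro a ha b hb
    by_cases haw : a = w
    · subst haw
      rw [hσ4 b (fun h => hy (h ▸ hb)) (fun h => hu (h ▸ hb))]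
    · rw [hσ3 a ha b haw]
  · intro a ha
    by_cases haw : a = w
    · subst haw
      unfold cs
      rw [← Equiv.sum_comp (Equiv.swap y u)]
      apply Finset.sum_congr rfl
      intro c _
      show Kc (kap1 P.w P.p1 _) _ _ = Kc (kap1 P.w P.p1 _) _ _
      by_cases hcy : c = y
      · subst hcy
        rw [Equiv.swap_apply_left]
        unfold Kc kap1
        beta_reduce
        rw [if_neg hwu, if_neg hwy, hσ2]
      · by_cases hcu : c = u
        · subst hcu
          rw [Equiv.swap_apply_right]
          unfold Kc kap1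
          beta_reduce
          rw [if_neg hwu, if_neg hwy, hσ1]
        · rw [Equiv.swap_apply_of_ne_of_ne hcy hcu]
          unfold Kc kap1
          beta_reduce
          rw [hσ4 c hcy hcu]
    · apply cs_congr P
      intro c
      rw [hσ3 a ha c haw]
  · apply Kc_congr P
    rw [hσ3 x (by simp) y hwx.symm]

/-- closings -/
theorem Ex_clo_local (x : Fin n) (t : List (Fin n)) :
    ((n : ℝ) - P.k0) * ∑ y, Ex (fun U => wt P U y (x :: t) * ind (clo (Dt P U).g y (x :: t))) ≤
      ∑ y, Ex (fun U => wt P U y (x :: t) *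
        (ind (y ∉ x :: t) * bdy (Dt P U).g (fun _ => True) ((x :: t).toFinset))) := by
  classical
  set S := vis x t with hS
  by_cases hlt : S.card < P.k0
  · rw [Finset.mul_sum]
    apply Finset.sum_le_sum
    intro y _
    by_cases hy : y ∈ x :: t
    · have z1 : ∀ U : Ev n, ind (clo (Dt P U).g y (x :: t)) = 0 := fun U =>
        ind_false (fun h => h.1 hy)
      simp only [z1, mul_zero]
      rw [Ex_const, mul_zero]
      exact Ex_nonneg (fun U => mul_nonneg (wt_nonneg _ _ _ _)
        (mul_nonneg (ind_nonneg _) (bdy_nonneg _ _ _)))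
    · have bW : BM (fun U => wt P U y (x :: t)) := BM_wt P y _
      set A : Fin n → Fin n → ℝ := fun w u =>
        Ex (fun U => wt P U y (x :: t) * ind (U s(w, u) ≤ P.p1)) with hA
      have hA0 : ∀ w u, 0 ≤ A w u := fun w u =>
        Ex_nonneg (fun U => mul_nonneg (wt_nonneg _ _ _ _) (ind_nonneg _))
      have e1 : Ex (fun U => wt P U y (x :: t) * ind (clo (Dt P U).g y (x :: t))) ≤
          ∑ w ∈ S.erase x, A w y := by
        rw [hA, ← Ex_sum _ (fun w _ => bW.mul (BM.ind (mset_le _ _)))]
        apply Ex_mono (bW.mul (BM.ind (mset_clo P _ _)))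
          (BM.sum _ (fun w _ => bW.mul (BM.ind (mset_le _ _))))
        intro U
        rw [← Finset.mul_sum]
        apply mul_le_mul_of_nonneg_left _ (wt_nonneg _ _ _ _)
        by_cases hc : clo (Dt P U).g y (x :: t)
        · rw [ind_true hc]
          obtain ⟨_, w, h1, h2, h3⟩ := hc
          have hwx : w ≠ x := by
            simp only [List.head?_cons, ne_eq, Option.some.injEq] at h2
            exact fun h => h2 h.symm
          have hw : w ∈ S.erase x := Finset.mem_erase.2 ⟨hwx, mem_vis.2 h1⟩
          have h4 : (1:ℝ) = ind (U s(w, y) ≤ P.p1) := (ind_true h3).symm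
          rw [h4]
          exact Finset.single_le_sum (f := fun w => ind (U s(w, y) ≤ P.p1))
            (fun w _ => ind_nonneg _) hw
        · rw [ind_false hc]
          exact Finset.sum_nonneg (fun w _ => ind_nonneg _)
      have e2 : ∀ w ∈ S.erase x, ((Sᶜ.card : ℕ) : ℝ) * A w y = ∑ u ∈ Sᶜ, A w u := by
        intro w hw
        rw [Finset.mem_erase] at hw
        have : ∀ u ∈ Sᶜ, A w u = A w y := by
          intro u hu
          rw [Finset.mem_compl] at hu
          exact (Ex_swap P (mem_vis.1 hw.2) hw.1 hy (fun h => hu (mem_vis.2 h))).symm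
        rw [Finset.sum_congr rfl this, Finset.sum_const, nsmul_eq_mul]
      have e3 : ∑ w ∈ S.erase x, ∑ u ∈ Sᶜ, A w u ≤
          Ex (fun U => wt P U y (x :: t) *
            (ind (y ∉ x :: t) * bdy (Dt P U).g (fun _ => True) ((x :: t).toFinset))) := by
        have e4 : ∑ w ∈ S.erase x, ∑ u ∈ Sᶜ, A w u = Ex (fun U => ∑ w ∈ S.erase x, ∑ u ∈ Sᶜ,
            wt P U y (x :: t) * ind (U s(w, u) ≤ P.p1)) := by
          rw [Ex_sum _ (fun w _ => BM.sum _ (fun u _ => bW.mul (BM.ind (mset_le _ _))))]
          apply Finset.sum_congr rfl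
          intro w _
          rw [Ex_sum _ (fun u _ => bW.mul (BM.ind (mset_le _ _)))]
        rw [e4]
        apply Ex_mono
        · exact BM.sum _ (fun w _ => BM.sum _ (fun u _ => bW.mul (BM.ind (mset_le _ _))))
        · exact bW.mul ((BM.const _).mul (BM_bdyg P _))
        · intro U
          rw [ind_true hy, one_mul]
          unfold bdy cnt
          rw [Finset.mul_sum]
          have e5 : ∀ w, wt P U y (x :: t) * (ind True * ∑ u ∈ (x :: t).toFinsetᶜ,
              ind ((Dt P U).g s(w, u))) = ∑ u ∈ Sᶜ,
              wt P U y (x :: t) * ind (U s(w, u) ≤ P.p1) := by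
            intro w
            rw [ind_true trivial, one_mul, Finset.mul_sum]
            rfl
          simp_rw [e5]
          apply Finset.sum_le_sum_of_subset_of_nonneg (Finset.erase_subset _ _)
          intro w _ _
          exact Finset.sum_nonneg (fun u _ => mul_nonneg (wt_nonneg _ _ _ _) (ind_nonneg _))
      have e6 : (n : ℝ) - P.k0 ≤ (Sᶜ.card : ℝ) := by
        have h1 : Sᶜ.card = n - S.card := by
          rw [Finset.card_compl, Fintype.card_fin]
        have h2 : S.card ≤ n := by
          have := Finset.card_le_univ S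
          rwa [Fintype.card_fin] at this
        rw [h1, Nat.cast_sub h2]
        have : (S.card : ℝ) ≤ P.k0 := by exact_mod_cast hlt.le
        linarith
      have e7 : 0 ≤ ∑ w ∈ S.erase x, A w y := Finset.sum_nonneg (fun w _ => hA0 w y)
      have e8 : 0 ≤ Ex (fun U => wt P U y (x :: t) * ind (clo (Dt P U).g y (x :: t))) :=
        Ex_nonneg (fun U => mul_nonneg (wt_nonneg _ _ _ _) (ind_nonneg _))
      calc _ ≤ (Sᶜ.card : ℝ) *
            Ex (fun U => wt P U y (x :: t) * ind (clo (Dt P U).g y (x :: t))) :=
            mul_le_mul_of_nonneg_right e6 e8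
        _ ≤ (Sᶜ.card : ℝ) * ∑ w ∈ S.erase x, A w y :=
            mul_le_mul_of_nonneg_left e1 (Nat.cast_nonneg _)
        _ = ∑ w ∈ S.erase x, ∑ u ∈ Sᶜ, A w u := by
            rw [Finset.mul_sum]
            exact Finset.sum_congr rfl e2
        _ ≤ _ := e3
  · have z1 : ∀ (y : Fin n) (U : Ev n), wt P U y (x :: t) = 0 := by
      intro y U
      by_contra hne
      exact hlt (wt_card P U hne)
    simp only [z1, zero_mul]
    rw [Ex_const]; simp

/-- relabelling of the next vertex -/
theorem Ex_relabel {x y u : Fin n} {t : List (Fin n)} (hy : y ∉ x :: t) (hu : u ∉ x :: t) :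
    Ex (fun U => wt P U y (x :: t)) = Ex (fun U => wt P U u (x :: t)) := by
  classical
  set τ : Equiv.Perm (Fin n) := Equiv.swap y u with hτ
  set σ : Equiv.Perm (Sym2 (Fin n)) := ⟨Sym2.map τ, Sym2.map τ.symm, fun e => by
    rw [Sym2.map_map]; simp, fun e => by rw [Sym2.map_map]; simp⟩ with hσ
  have hσ1 : ∀ a b, σ s(a, b) = s(τ a, τ b) := fun a b => rfl
  have hfix : ∀ a ∈ x :: t, τ a = a := by
    intro a ha
    exact Equiv.swap_apply_of_ne_of_ne (fun h => hy (h ▸ ha)) (fun h => hu (h ▸ ha))
  rw [← Ex_perm σ (fun U => wt P U u (x :: t))]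
  apply Ex_congr
  intro U
  have hK : ∀ a b, Kc (Dt P (fun e => U (σ e))).κ a b = Kc (Dt P U).κ (τ a) (τ b) := by
    intro a b
    show Kc (kap1 P.w P.p1 _) _ _ = Kc (kap1 P.w P.p1 _) _ _
    unfold Kc kap1
    beta_reduce
    rw [hσ1]
    by_cases hab : a = b
    · rw [if_pos hab, if_pos (by rw [hab])]
    · rw [if_neg hab, if_neg (fun h => hab (τ.injective h))]
  apply wt_step P
  · intro a ha b hb
    rw [hσ1, hfix a ha, hfix b hb]
  · intro a ha
    unfold cs
    rw [← Equiv.sum_comp τ]
    apply Finset.sum_congr rfl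
    intro c _
    rw [hK, hfix a ha]
  · rw [hK, hfix x (by simp)]
    congr 1
    exact (Equiv.swap_apply_right y u).symm

/-- hits of the target -/
theorem Ex_R_local (x : Fin n) (t : List (Fin n)) :
    ((n : ℝ) - P.k0) * ∑ y, Ex (fun U => wt P U y (x :: t) * ind (y ∈ P.R)) ≤
      P.R.card * ∑ y, Ex (fun U => wt P U y (x :: t) * ind (y ∉ x :: t)) := by
  classical
  set S := vis x t with hS
  have hz : (∀ (y : Fin n) (U : Ev n), wt P U y (x :: t) = 0) →
      ((n : ℝ) - P.k0) * ∑ y, Ex (fun U => wt P U y (x :: t) * ind (y ∈ P.R)) ≤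
      P.R.card * ∑ y, Ex (fun U => wt P U y (x :: t) * ind (y ∉ x :: t)) := by
    intro z1
    simp only [z1, zero_mul]
    rw [Ex_const]; simp
  by_cases hlt : S.card < P.k0
  · by_cases hR : ∀ w ∈ x :: t, w ∉ P.R
    · -- common value
      by_cases hne : (Sᶜ).Nonempty
      · obtain ⟨y0, hy0⟩ := hne
        rw [Finset.mem_compl] at hy0
        have hy0' : y0 ∉ x :: t := fun h => hy0 (mem_vis.2 h)
        set ω := Ex (fun U => wt P U y0 (x :: t)) with hω
        have hω0 : 0 ≤ ω := Ex_nonneg (fun U => wt_nonneg _ _ _ _)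
        have hval : ∀ y, y ∉ x :: t → Ex (fun U => wt P U y (x :: t)) = ω := fun y hy =>
          Ex_relabel P hy hy0'
        have e1 : ∑ y, Ex (fun U => wt P U y (x :: t) * ind (y ∈ P.R)) = P.R.card * ω := by
          have : ∀ y, Ex (fun U => wt P U y (x :: t) * ind (y ∈ P.R)) =
              if y ∈ P.R then ω else 0 := by
            intro y
            by_cases hyR : y ∈ P.R
            · rw [if_pos hyR]
              simp only [ind_true hyR, mul_one]
              exact hval y (fun h => hR y h hyR)
            · rw [if_neg hyR]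
              simp only [ind_false hyR, mul_zero]
              rw [Ex_const]
          simp_rw [this]
          rw [Finset.sum_ite_mem, Finset.univ_inter, Finset.sum_const, nsmul_eq_mul]
        have e2 : ∑ y, Ex (fun U => wt P U y (x :: t) * ind (y ∉ x :: t)) = Sᶜ.card * ω := by
          have : ∀ y, Ex (fun U => wt P U y (x :: t) * ind (y ∉ x :: t)) =
              if y ∈ Sᶜ then ω else 0 := by
            intro y
            by_cases hyR : y ∈ Sᶜ
            · rw [if_pos hyR]
              rw [Finset.mem_compl] at hyR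
              have hy : y ∉ x :: t := fun h => hyR (mem_vis.2 h)
              simp only [ind_true hy, mul_one]
              exact hval y hy
            · rw [if_neg hyR]
              rw [Finset.mem_compl, not_not] at hyR
              have hy : ¬ (y ∉ x :: t) := fun h => h (mem_vis.1 hyR)
              simp only [ind_false hy, mul_zero]
              rw [Ex_const]
          simp_rw [this]
          rw [Finset.sum_ite_mem, Finset.univ_inter, Finset.sum_const, nsmul_eq_mul]
        rw [e1, e2]
        have e6 : (n : ℝ) - P.k0 ≤ (Sᶜ.card : ℝ) := by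
          have h1 : Sᶜ.card = n - S.card := by
            rw [Finset.card_compl, Fintype.card_fin]
          have h2 : S.card ≤ n := by
            have := Finset.card_le_univ S
            rwa [Fintype.card_fin] at this
          rw [h1, Nat.cast_sub h2]
          have : (S.card : ℝ) ≤ P.k0 := by exact_mod_cast hlt.le
          linarith
        have e7 : (0:ℝ) ≤ P.R.card * ω := mul_nonneg (Nat.cast_nonneg _) hω0
        calc _ ≤ (Sᶜ.card : ℝ) * (P.R.card * ω) := mul_le_mul_of_nonneg_right e6 e7
          _ = _ := by ring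
      · have hun : ∀ y : Fin n, y ∈ x :: t := by
          intro y
          by_contra hcon
          exact hne ⟨y, Finset.mem_compl.2 (fun h => hcon (mem_vis.1 h))⟩
        have e1 : ∀ y, Ex (fun U => wt P U y (x :: t) * ind (y ∈ P.R)) = 0 := by
          intro y
          simp only [ind_false (hR y (hun y)), mul_zero]
          rw [Ex_const]
        simp_rw [e1]
        rw [Finset.sum_const_zero, mul_zero]
        apply mul_nonneg (Nat.cast_nonneg _)
        exact Finset.sum_nonneg (fun y _ => Ex_nonneg
          (fun U => mul_nonneg (wt_nonneg _ _ _ _) (ind_nonneg _)))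
    · apply hz
      intro y U
      by_contra hne
      exact hR (wt_R P U hne)
  · apply hz
    intro y U
    by_contra hne
    exact hlt (wt_card P U hne)

/-! ### escapes -/

/-- hitting probability of the target in the fresh environment -/
def Hm (c : ℝ) (B : Finset (Fin n)) (y : Fin n) (m : ℕ) (U : Ev n) : ℝ :=
  hit (off (kap1 P.w P.p1 U) B) (fun v => if v = y then c else 0) P.R ∅ m y

theorem Hk0 {c : ℝ} (hc : 0 ≤ c) (y : Fin n) :
    ∀ v : Fin n, (0:ℝ) ≤ (fun v => if v = y then c else 0) v := by
  intro v; simp only; split_ifs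
  · exact hc
  · exact le_rfl

theorem BM_Hm {c : ℝ} (hc : 0 ≤ c) (B : Finset (Fin n)) (y : Fin n) (m : ℕ) :
    BM (fun U => Hm P c B y m U) := by
  have hoff : ∀ e, Measurable (fun U : Ev n => off (kap1 P.w P.p1 U) B e) := by
    intro e
    unfold off
    by_cases h : ∃ b ∈ B, b ∈ e
    · simp only [if_pos h]; exact measurable_const
    · simp only [if_neg h]; exact meas_kap1 P.wa _ _
  have hK : ∀ a b, Measurable (fun U : Ev n => Kc (off (kap1 P.w P.p1 U) B) a b) := by
    intro a b
    unfold Kc
    by_cases h : a = b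
    · simp only [if_pos h]; exact measurable_const
    · simp only [if_neg h]; exact hoff _
  have hcs : ∀ a, Measurable (fun U : Ev n => cs (off (kap1 P.w P.p1 U) B) a) := by
    intro a
    unfold cs
    exact Finset.measurable_sum _ (fun b _ => hK a b)
  have hm : ∀ (m : ℕ) (a : Fin n), Measurable (fun U : Ev n =>
      hit (off (kap1 P.w P.p1 U) B) (fun v => if v = y then c else 0) P.R ∅ m a) := by
    intro m
    induction m with
    | zero => intro a; unfold hit; exact measurable_const
    | succ m ih =>
      intro a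
      unfold hit
      by_cases h1 : a ∈ P.R
      · simp only [if_pos h1]; exact measurable_const
      · simp only [if_neg h1, if_neg (Finset.notMem_empty a)]
        exact (Finset.measurable_sum _ (fun b _ => (hK a b).mul (ih b))).div
          ((hcs a).add measurable_const)
  refine ⟨hm m y, 1, fun U => ?_⟩
  unfold Hm
  rw [abs_of_nonneg (hit_nonneg (off_nonneg (kap1_nonneg P.w0 _ _) _) (Hk0 hc y) _ _)]
  exact hit_le_one (off_nonneg (kap1_nonneg P.w0 _ _) _) (Hk0 hc y) _ _

theorem Hm_congr {c : ℝ} (B : Finset (Fin n)) (y : Fin n) (m : ℕ) (U U' : Ev n)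
    (h : ∀ e : Sym2 (Fin n), (∀ b ∈ B, b ∉ e) → U e = U' e) :
    Hm P c B y m U = Hm P c B y m U' := by
  have : off (kap1 P.w P.p1 U) B = off (kap1 P.w P.p1 U') B := by
    funext e
    unfold off
    by_cases h1 : ∃ b ∈ B, b ∈ e
    · rw [if_pos h1, if_pos h1]
    · rw [if_neg h1, if_neg h1]
      push Not at h1
      unfold kap1
      rw [h e h1]
  unfold Hm
  rw [this]

/-- escapes at level `j` -/
theorem Ex_L_local {q : ℝ} {m0 : ℕ}
        (hq : ∀ m, m0 ≤ m → ∀ (B : Finset (Fin n)) (y : Fin n), B.card < P.k0 →
      (∀ w ∈ B, w ∉ P.R) → y ∉ B →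
      q ≤ Ex (fun U => Hm P ((P.w P.pt)) B y m U)) (j m : ℕ) (hm : m0 ≤ m)
    (x y : Fin n) (t : List (Fin n)) :
    q * Ex (fun U => wt P U y (x :: t) * gL P j U y (x :: t)) ≤
      Ex (fun U => wt P U y (x :: t) * (ind (isL (Dt P U) j y (x :: t)) *
        ef (Dt P U) x m y (x :: t))) := by
  classical
  set c := (P.w P.pt) with hc
  have hc0 : 0 ≤ c := (P.w0 _).le
  have bF : BM (fun U => wt P U y (x :: t) * gL P j U y (x :: t)) :=
    (BM_wt P y _).mul (BM_gL P j y _)
  have bR : BM (fun U => wt P U y (x :: t) * (ind (isL (Dt P U) j y (x :: t)) *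
        ef (Dt P U) x m y (x :: t))) :=
    (BM_wt P y _).mul ((BM.ind (mset_isL P j y _)).mul (BM_ef P x m y _))
  have hz : (∀ U : Ev n, wt P U y (x :: t) * gL P j U y (x :: t) = 0) →
      q * Ex (fun U => wt P U y (x :: t) * gL P j U y (x :: t)) ≤
      Ex (fun U => wt P U y (x :: t) * (ind (isL (Dt P U) j y (x :: t)) *
        ef (Dt P U) x m y (x :: t))) := by
    intro z1
    simp only [z1]
    rw [Ex_const, mul_zero]
    exact Ex_nonneg (fun U => mul_nonneg (wt_nonneg _ _ _ _)
      (mul_nonneg (ind_nonneg _) (ef_nonneg _ _ _ _ _)))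
  by_cases hy : y ∈ x :: t
  · apply hz
    intro U
    unfold gL
    rw [ind_false (fun h => h.1 hy), mul_zero]
  by_cases hlt : (vis x t).card < P.k0
  swap
  · apply hz
    intro U
    have : wt P U y (x :: t) = 0 := by
      by_contra hne
      exact hlt (wt_card P U hne)
    rw [this, zero_mul]
  by_cases hR : ∀ w ∈ x :: t, w ∉ P.R
  swap
  · apply hz
    intro U
    have : wt P U y (x :: t) = 0 := by
      by_contra hne
      exact hR (wt_R P U hne)
    rw [this, zero_mul]
  have hyB : y ∉ vis x t := fun h => hy (mem_vis.1 h)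
  have h1 := hq m hm (vis x t) y hlt (fun w hw => hR w (mem_vis.1 hw)) hyB
  have h2 : Ex (fun U => (wt P U y (x :: t) * gL P j U y (x :: t)) * Hm P c (vis x t) y m U) =
      Ex (fun U => wt P U y (x :: t) * gL P j U y (x :: t)) *
      Ex (fun U => Hm P c (vis x t) y m U) := by
    apply Ex_indep (x :: t)
    · intro U U' h
      rw [wt_congr P y (x :: t) h]
      unfold gL
      have := isL_congr P j y (x :: t) h
      by_cases h5 : isL (Dt P U) j y (x :: t)
      · rw [ind_true h5, ind_true (this.1 h5)]
      · rw [ind_false h5, ind_false (fun h6 => h5 (this.2 h6))]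
    · intro U U' h
      apply Hm_congr
      intro e he
      apply h e
      intro b hb
      exact he b (mem_vis.2 hb)
  have h3 : 0 ≤ Ex (fun U => wt P U y (x :: t) * gL P j U y (x :: t)) :=
    Ex_nonneg (fun U => mul_nonneg (wt_nonneg _ _ _ _) (ind_nonneg _))
  calc _ = Ex (fun U => wt P U y (x :: t) * gL P j U y (x :: t)) * q := mul_comm _ _
    _ ≤ Ex (fun U => wt P U y (x :: t) * gL P j U y (x :: t)) *
        Ex (fun U => Hm P c (vis x t) y m U) := mul_le_mul_of_nonneg_left h1 h3
    _ = _ := h2.symm
    _ ≤ _ := by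
        apply Ex_mono (bF.mul (BM_Hm P hc0 _ _ _)) bR
        intro U
        unfold gL
        rw [mul_assoc]
        apply mul_le_mul_of_nonneg_left _ (wt_nonneg _ _ _ _)
        by_cases hL : isL (Dt P U) j y (x :: t)
        · rw [ind_true hL, one_mul, one_mul]
          by_cases hs : stp (Dt P U) y (x :: t)
          · rw [ef_stp _ _ _ hs]
            exact hit_le_one (off_nonneg (kap1_nonneg P.w0 _ _) _) (Hk0 hc0 y) _ _
          · apply hit_le_ef (Dt P U) (vis x t) y x (self_mem_vis x t) _ hc0 m y (x :: t) hyB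
            · intro w hw hwB hwy
              rw [vis_cons] at hw
              rcases Finset.mem_insert.1 hw with h | h
              · exact absurd h hwy
              · exact absurd h hwB
            · intro b hb hgb
              by_contra hcon
              apply hs
              right; left
              refine ⟨hy, b, mem_vis.1 hb, ?_, ?_⟩
              · simp only [List.head?_cons, ne_eq, Option.some.injEq]
                exact fun h => hcon h.symm
              · rwa [Sym2.eq_swap]
            · exact self_mem_vis y (x :: t)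
            · rw [vis_cons]; exact Finset.subset_insert _ _
            · have htop : P.pt < U s(x, y) := hL.2.1
              show Kc (kap1 P.w P.p1 U) y x ≤ c
              unfold Kc kap1
              split_ifs
              · exact hc0
              · rw [Sym2.eq_swap]
                exact P.wa htop.le
              · exact hc0
        · rw [ind_false hL, zero_mul, zero_mul]

end

end

end Pool.Agent.TH972.H
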