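import Pool.Agent.W842.RST.Avoid
import Pool.Agent.TH972.H.Local2

/-!
# The total annealed bound
-/

set_option autoImplicit false
set_option linter.unusedSectionVars false

namespace Pool.Agent.TH972.H

open Finset MeasureTheory Pool.Agent.W842.RST

noncomputable section

variable {n : ℕ}

section

variable (P : Prm n)

theorem comp_closed (U : Ev n) (v : Fin n) :
    ∀ w ∈ comp (GU U P.p1) v, ∀ u, (Dt P U).g s(w, u) → u ∈ comp (GU U P.p1) v := by
  intro w hw u hg
  rw [mem_comp] at hw ⊢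
  by_cases hwu : w = u
  · rwa [← hwu]
  · refine hw.trans (SimpleGraph.Adj.reachable ?_)
    rw [GU_adj]
    exact ⟨hg, hwu⟩

theorem vis_nil (v : Fin n) : vis v ([] : List (Fin n)) = {v} := by unfold vis; rfl

theorem self_mem_comp (G : SimpleGraph (Fin n)) (v : Fin n) : v ∈ comp G v := by
  rw [mem_comp]

/-- functional of the closings -/
def gC (U : Ev n) (y : Fin n) (s : List (Fin n)) : ℝ := ind (clo (Dt P U).g y s)

/-- functional of the hits of the target -/
def gR (_ : Ev n) (y : Fin n) (_ : List (Fin n)) : ℝ := ind (y ∈ P.R)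

theorem BM_gC (y : Fin n) (s : List (Fin n)) : BM (fun U => gC P U y s) :=
  BM.ind (mset_clo P y s)

theorem BM_gR (y : Fin n) (s : List (Fin n)) : BM (fun U => gR P U y s) := BM.const _

theorem oc_add (D : Dat (Fin n)) (g g' : Fin n → List (Fin n) → ℝ) (m : ℕ) (x : Fin n)
    (t : List (Fin n)) :
    oc D (fun y s => g y s + g' y s) m x t = oc D g m x t + oc D g' m x t := by
  unfold oc
  rw [← occ_add]
  congr 1
  funext _ x t
  unfold st
  rw [← Finset.sum_add_distrib]
  apply Finset.sum_congr rfl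
  intro y _
  ring

theorem oc_mul (D : Dat (Fin n)) (c : ℝ) (g : Fin n → List (Fin n) → ℝ) (m : ℕ) (x : Fin n)
    (t : List (Fin n)) :
    oc D (fun y s => c * g y s) m x t = c * oc D g m x t := by
  unfold oc
  rw [← occ_mul]
  congr 1
  funext _ x t
  unfold st
  rw [Finset.mul_sum]
  apply Finset.sum_congr rfl
  intro y _
  ring

theorem oc_sum (D : Dat (Fin n)) {ι : Type*} (s : Finset ι) (g : ι → Fin n → List (Fin n) → ℝ)
    (m : ℕ) (x : Fin n) (t : List (Fin n)) :
    oc D (fun y t => ∑ i ∈ s, g i y t) m x t = ∑ i ∈ s, oc D (g i) m x t := by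
  unfold oc
  rw [← occ_sum]
  congr 1
  funext _ x t
  unfold st
  rw [Finset.sum_comm]
  apply Finset.sum_congr rfl
  intro y _
  rw [Finset.mul_sum]

/-- expected number of closings -/
theorem Ex_clo (hp0 : 0 ≤ P.p1) (hp1 : P.p1 ≤ 1) {θ : ℝ} (hθ0 : 0 ≤ θ)
    (hθ : (n : ℝ) * P.p1 ≤ 1 + θ) (hk0 : 1 ≤ P.k0) (hkn : (P.k0 : ℝ) < n) (m : ℕ) (v : Fin n)
    {K : ℝ} (hK : Ex (fun U => oc (Dt P U) (gN U) m v []) ≤ K) :
    Ex (fun U => oc (Dt P U) (gC P U) m v []) ≤
      P.k0 * (1 + θ + θ * K) / (n - P.k0) := by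
  have h1 := Ex_bdy P hp0 hp1 hθ0 hθ hk0 m v
  have hpos : (0:ℝ) < n - P.k0 := by linarith
  set g1 : Ev n → Fin n → List (Fin n) → ℝ := fun U y s =>
    ((n : ℝ) - P.k0)⁻¹ * (ind (y ∉ s) * bdy (Dt P U).g (fun _ => True) (s.toFinset)) with hg1
  have bg1 : ∀ y s, BM (fun U => g1 U y s) := fun y s =>
    (BM.const _).mul ((BM.const _).mul (BM_bdyg P _))
  have h2 : Ex (fun U => oc (Dt P U) (gC P U) m v []) ≤
      Ex (fun U => oc (Dt P U) (g1 U) m v []) := by
    apply anneal_oc P (BM_gC P) bg1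
    intro x t
    have h3 := Ex_clo_local P x t
    have h4 : ∑ y, Ex (fun U => wt P U y (x :: t) * g1 U y (x :: t)) =
        ((n : ℝ) - P.k0)⁻¹ * ∑ y, Ex (fun U => wt P U y (x :: t) *
        (ind (y ∉ x :: t) * bdy (Dt P U).g (fun _ => True) ((x :: t).toFinset))) := by
      rw [Finset.mul_sum]
      apply Finset.sum_congr rfl
      intro y _
      rw [← Ex_const_mul]
      apply Ex_congr
      intro U
      rw [hg1]
      ring
    rw [h4, ← div_eq_inv_mul, le_div_iff₀ hpos]
    unfold gC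
    linarith
  have h5 : Ex (fun U => oc (Dt P U) (g1 U) m v []) = ((n : ℝ) - P.k0)⁻¹ *
      Ex (fun U => oc (Dt P U) (fun y s => ind (y ∉ s) *
      bdy (Dt P U).g (fun _ => True) (s.toFinset)) m v []) := by
    rw [← Ex_const_mul]
    apply Ex_congr
    intro U
    rw [hg1, oc_mul]
  rw [h5] at h2
  refine h2.trans ?_
  rw [← div_eq_inv_mul]
  apply div_le_div_of_nonneg_right _ hpos.le
  refine h1.trans ?_
  have h6 : (P.k0 : ℝ) * θ * Ex (fun U => oc (Dt P U) (gN U) m v []) ≤ P.k0 * θ * K :=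
    mul_le_mul_of_nonneg_left hK (by positivity)
  nlinarith

/-- probability of hitting the target -/
theorem Ex_R (hkn : (P.k0 : ℝ) < n) (m : ℕ) (v : Fin n)
    {K : ℝ} (hK : Ex (fun U => oc (Dt P U) (gN U) m v []) ≤ K) :
    Ex (fun U => oc (Dt P U) (gR P U) m v []) ≤ P.R.card * K / (n - P.k0) := by
  have hpos : (0:ℝ) < n - P.k0 := by linarith
  set c : ℝ := P.R.card / (n - P.k0) with hc
  set g1 : Ev n → Fin n → List (Fin n) → ℝ := fun U y s => c * gN U y s with hg1
  have bg1 : ∀ y s, BM (fun U => g1 U y s) := fun y s => (BM.const _).mul (BM_gN y s)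
  have h2 : Ex (fun U => oc (Dt P U) (gR P U) m v []) ≤
      Ex (fun U => oc (Dt P U) (g1 U) m v []) := by
    apply anneal_oc P (BM_gR P) bg1
    intro x t
    have h3 := Ex_R_local P x t
    have h4 : ∑ y, Ex (fun U => wt P U y (x :: t) * g1 U y (x :: t)) =
        c * ∑ y, Ex (fun U => wt P U y (x :: t) * ind (y ∉ x :: t)) := by
      rw [Finset.mul_sum]
      apply Finset.sum_congr rfl
      intro y _
      rw [← Ex_const_mul]
      apply Ex_congr
      intro U
      rw [hg1]
      unfold gN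
      ring
    rw [h4, hc, div_mul_eq_mul_div, le_div_iff₀ hpos]
    unfold gR
    linarith
  have h5 : Ex (fun U => oc (Dt P U) (g1 U) m v []) =
      c * Ex (fun U => oc (Dt P U) (gN U) m v []) := by
    rw [← Ex_const_mul]
    apply Ex_congr
    intro U
    rw [hg1, oc_mul]
  rw [h5] at h2
  refine h2.trans ?_
  rw [hc, div_mul_eq_mul_div]
  apply div_le_div_of_nonneg_right _ hpos.le
  exact mul_le_mul_of_nonneg_left hK (Nat.cast_nonneg _)

theorem mset_comp (q : ℕ → Prop) (p : ℝ) (v : Fin n) :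
    MeasurableSet {U : Ev n | q (comp (GU U p) v).card} := by
  classical
  set φ : Ev n → (Sym2 (Fin n) → Bool) := fun U e => decide (U e ≤ p) with hφ
  have hm : Measurable φ := by
    rw [measurable_pi_iff]
    intro e
    apply measurable_to_bool
    have : (fun U : Ev n => φ U e) ⁻¹' {true} = {U : Ev n | U e ≤ p} := by
      ext U
      rw [hφ]
      simp
    rw [this]
    exact mset_le e p
  have : {U : Ev n | q (comp (GU U p) v).card} = φ ⁻¹' {b | q (comp
      (SimpleGraph.fromEdgeSet {e | b e = true}) v).card} := by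
    ext U
    simp only [Set.mem_preimage, Set.mem_ofPred_eq]
    have : GU U p = SimpleGraph.fromEdgeSet {e | φ U e = true} := by
      unfold GU
      congr 1
      ext e
      rw [hφ]
      simp
    rw [this]
  rw [this]
  exact hm (MeasurableSet.of_discrete)

theorem meas_comp (p : ℝ) (v : Fin n) : Measurable (fun U : Ev n => (comp (GU U p) v).card) :=
  measurable_to_countable' (fun k => mset_comp (fun x => x = k) p v)

theorem BM_compmin (p : ℝ) (k : ℕ) (v : Fin n) :
    BM (fun U : Ev n => ((min (comp (GU U p) v).card k : ℕ) : ℝ)) := by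
  refine ⟨?_, k, fun U => ?_⟩
  · exact measurable_from_nat.comp ((meas_comp p v).min measurable_const)
  · rw [abs_of_nonneg (Nat.cast_nonneg _)]
    exact_mod_cast min_le_right _ _

/-- the probability that the walk stops -/
theorem Ex_Bf (v : Fin n) (hv : v ∉ P.R) (m : ℕ) {c1 c2 π : ℝ}
    (h1 : Ex (fun U => oc (Dt P U) (gC P U) m v []) ≤ c1)
    (h2 : Ex (fun U => oc (Dt P U) (gR P U) m v []) ≤ c2)
    (h3 : Ex (fun U => ind (P.k0 ≤ (comp (GU U P.p1) v).card)) ≤ π) :
    Ex (fun U => Bf (Dt P U) m v []) ≤ c1 + c2 + π := by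
  have b1 := BM_oc P (BM_gC P) m v []
  have b2 := BM_oc P (BM_gR P) m v []
  have b3 : BM (fun U : Ev n => ind (P.k0 ≤ (comp (GU U P.p1) v).card)) :=
    BM.ind (mset_comp (fun k => P.k0 ≤ k) P.p1 v)
  calc Ex (fun U => Bf (Dt P U) m v []) ≤ Ex (fun U => (oc (Dt P U) (gC P U) m v [] +
        oc (Dt P U) (gR P U) m v []) + ind (P.k0 ≤ (comp (GU U P.p1) v).card)) := by
        apply Ex_mono (BM_Bf P m v []) ((b1.add b2).add b3)
        intro U
        have h := Bf_le (Dt P U) (comp (GU U P.p1) v) (comp_closed P U v) m v []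
          (by rw [vis_nil]; simpa using self_mem_comp _ v) hv (by
            rintro ⟨_, w, hw, _⟩
            simp at hw)
        have e : oc (Dt P U) (fun y s => ind (clo (Dt P U).g y s) + ind (y ∈ (Dt P U).R)) m v []
            = oc (Dt P U) (gC P U) m v [] + oc (Dt P U) (gR P U) m v [] :=
          oc_add (Dt P U) (gC P U) (gR P U) m v []
        rw [e] at h
        exact h
    _ = Ex (fun U => oc (Dt P U) (gC P U) m v []) + Ex (fun U => oc (Dt P U) (gR P U) m v []) +
        Ex (fun U => ind (P.k0 ≤ (comp (GU U P.p1) v).card)) := by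
        rw [Ex_add (b1.add b2) b3, Ex_add b1 b2]
    _ ≤ _ := by linarith

/-- expected number of entrances at level `j` -/
theorem Ex_L {q : ℝ} (hq0 : 0 ≤ q) {m0 : ℕ}
    (hq : ∀ m, m0 ≤ m → ∀ (B : Finset (Fin n)) (y : Fin n), B.card < P.k0 →
      (∀ w ∈ B, w ∉ P.R) → y ∉ B →
      q ≤ Ex (fun U => Hm P (P.w P.pt) B y m U)) (j m : ℕ) (v : Fin n)
    {b : ℝ} (hb : Ex (fun U => Bf (Dt P U) (m + m0) v []) ≤ b) :
    q * Ex (fun U => oc (Dt P U) (gL P j U) m v []) ≤ b := by
  classical
  set G1 : Ev n → ℕ → Fin n → List (Fin n) → ℝ := fun U m x t =>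
    (if m0 ≤ m then q else 0) * st (Dt P U) (gL P j U) x t with hG1
  have bG1 : ∀ m x t, BM (fun U => G1 U m x t) := fun m x t =>
    (BM.const _).mul (BM_st P (BM_gL P j) x t)
  have bG2 : ∀ m x t, BM (fun U => GLe (Dt P U) j m x t) := by
    intro m x t
    simp_rw [GLe_eq]
    exact BM.sum _ (fun y _ => (BM_tr P x y).mul
      ((BM.ind (mset_isL P j y _)).mul (BM_ef P x m y _)))
  have h1 : Ex (fun U => occ (Dt P U) (G1 U) (m + m0) v []) ≤
      Ex (fun U => occ (Dt P U) (GLe (Dt P U) j) (m + m0) v []) := by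
    apply anneal0 P bG1 bG2
    intro m x t
    have e1 : Ex (fun U => if stp (Dt P U) x t then 0 else wt P U x t * G1 U m x t) =
        (if m0 ≤ m then q else 0) *
        ∑ y, Ex (fun U => wt P U y (x :: t) * gL P j U y (x :: t)) := by
      rw [← Ex_sum _ (fun y _ => (BM_wt P y (x :: t)).mul (BM_gL P j y (x :: t))),
        ← Ex_const_mul]
      apply Ex_congr
      intro U
      by_cases hs : stp (Dt P U) x t
      · rw [if_pos hs]
        symm
        have : ∀ y, wt P U y (x :: t) = 0 := fun y => by unfold wt; rw [if_pos hs]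
        simp only [this, zero_mul, Finset.sum_const_zero, mul_zero]
      · rw [if_neg hs, hG1]
        unfold st
        simp only
        rw [Finset.mul_sum, Finset.mul_sum, Finset.mul_sum]
        apply Finset.sum_congr rfl
        intro y _
        conv_rhs => unfold wt
        rw [if_neg hs]
        ring
    have e2 : Ex (fun U => if stp (Dt P U) x t then 0 else
          wt P U x t * GLe (Dt P U) j m x t) =
        ∑ y, Ex (fun U => wt P U y (x :: t) * (ind (isL (Dt P U) j y (x :: t)) *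
        ef (Dt P U) x m y (x :: t))) := by
      rw [← Ex_sum _ (fun y _ => (BM_wt P y (x :: t)).mul
        ((BM.ind (mset_isL P j y _)).mul (BM_ef P x m y _)))]
      apply Ex_congr
      intro U
      by_cases hs : stp (Dt P U) x t
      · rw [if_pos hs]
        symm
        apply Finset.sum_eq_zero
        intro y _
        unfold wt
        rw [if_pos hs, zero_mul]
      · rw [if_neg hs, GLe_eq, Finset.mul_sum]
        apply Finset.sum_congr rfl
        intro y _
        conv_rhs => unfold wt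
        rw [if_neg hs]
        ring
    rw [e1, e2]
    by_cases hm : m0 ≤ m
    · rw [if_pos hm, Finset.mul_sum]
      apply Finset.sum_le_sum
      intro y _
      exact Ex_L_local P hq j m hm x y t
    · rw [if_neg hm, zero_mul]
      exact Finset.sum_nonneg (fun y _ => Ex_nonneg (fun U => mul_nonneg (wt_nonneg _ _ _ _)
        (mul_nonneg (ind_nonneg _) (ef_nonneg _ _ _ _ _))))
  have h2 : Ex (fun U => occ (Dt P U) (GLe (Dt P U) j) (m + m0) v []) ≤
      Ex (fun U => Bf (Dt P U) (m + m0) v []) := by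
    apply Ex_mono (BM_occ P bG2 _ _ _) (BM_Bf P _ _ _)
    intro U
    exact (occ_GLe_le (Dt P U) j (m + m0)).1 v []
  have h3 : q * Ex (fun U => oc (Dt P U) (gL P j U) m v []) ≤
      Ex (fun U => occ (Dt P U) (G1 U) (m + m0) v []) := by
    rw [← Ex_const_mul]
    apply Ex_mono ((BM.const _).mul (BM_oc P (BM_gL P j) m v [])) (BM_occ P bG1 _ _ _)
    intro U
    have hst : ∀ x t, 0 ≤ st (Dt P U) (gL P j U) x t := fun x t =>
      Finset.sum_nonneg (fun y _ => mul_nonneg (tr_nonneg (Dt P U).κ0 x y) (ind_nonneg _))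
    have key : ∀ (m : ℕ) (x : Fin n) (t : List (Fin n)),
        q * oc (Dt P U) (gL P j U) m x t ≤ occ (Dt P U) (G1 U) (m + m0) x t := by
      intro m
      induction m with
      | zero =>
        intro x t
        rw [oc_zero, mul_zero]
        apply occ_nonneg
        intro m x t
        rw [hG1]
        simp only
        apply mul_nonneg _ (hst x t)
        split_ifs
        · exact hq0
        · exact le_rfl
      | succ m ih =>
        intro x t
        have e : m + 1 + m0 = (m + m0) + 1 := by omega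
        rw [e]
        by_cases hs : stp (Dt P U) x t
        · rw [oc_stp _ _ _ hs, occ_stp _ _ _ hs, mul_zero]
        · unfold oc
          rw [occ_succ _ _ m hs, occ_succ _ _ (m + m0) hs, hG1]
          simp only
          rw [if_pos (by omega : m0 ≤ m + m0), mul_add]
          apply add_le_add_right
          rw [Finset.mul_sum]
          apply Finset.sum_le_sum
          intro y _
          have := mul_le_mul_of_nonneg_left (ih y (x :: t)) (tr_nonneg (Dt P U).κ0 x y)
          unfold oc at this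
          rw [hG1] at this
          refine le_trans (le_of_eq ?_) this
          ring
    exact key m v []
  exact h3.trans (h1.trans (h2.trans hb))

/-- the bound for the failure probability in a fixed environment -/
def bnd (M m : ℕ) (v : Fin n) (U : Ev n) : ℝ :=
  (oc (Dt P U) (gC P U) m v [] + oc (Dt P U) (gR P U) m v []) +
    (P.k0 : ℝ)⁻¹ * (1 + ∑ j ∈ range M, oc (Dt P U) (gnew P j U) m v [])

theorem BM_bnd (M m : ℕ) (v : Fin n) : BM (fun U => bnd P M m v U) := by
  unfold bnd
  exact ((BM_oc P (BM_gC P) m v []).add (BM_oc P (BM_gR P) m v [])).add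
    ((BM.const _).mul ((BM.const _).add
      (BM.sum _ (fun j _ => BM_oc P (BM_gnew P j) m v []))))

theorem failG_le_bnd (hk0 : 0 < P.k0) (M m : ℕ) (v : Fin n) (hv : v ∉ P.R) (U : Ev n) :
    failG (kap1 P.w P.p1 U) P.k0 (LTP (Dt P U) M) m v [] ≤ bnd P M m v U := by
  have h := failG_le (Dt P U) M (LTP (Dt P U) M) hk0
    (fun x t hch w hw hM => LTP_fe (Dt P U) M x t hch w hw hM) m v []
    (List.isChain_singleton v) hv (by
      rintro ⟨_, w, hw, _⟩
      simp at hw)
  refine h.trans ?_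
  unfold bnd
  have e : oc (Dt P U) (fun y s => ind (clo (Dt P U).g y s) + ind (y ∈ (Dt P U).R)) m v []
      = oc (Dt P U) (gC P U) m v [] + oc (Dt P U) (gR P U) m v [] :=
    oc_add (Dt P U) (gC P U) (gR P U) m v []
  rw [e]
  apply add_le_add_right
  apply mul_le_mul_of_nonneg_left _ (inv_nonneg.2 (Nat.cast_nonneg _))
  apply add_le_add
  · unfold cM
    rw [vis_nil, Finset.sum_singleton]
    exact ind_le_one _
  · rw [← oc_sum]
    unfold oc
    apply occ_mono
    intro _ x t
    unfold st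
    apply Finset.sum_le_sum
    intro y _
    apply mul_le_mul_of_nonneg_left _ (tr_nonneg (Dt P U).κ0 x y)
    beta_reduce
    by_cases hc : y ∉ x :: t ∧ lev (Dt P U).top (y :: x :: t) y < M
    · rw [ind_true hc]
      have h1 : (1:ℝ) = gnew P (lev (Dt P U).top (y :: x :: t) y) U y (x :: t) :=
        (ind_true ⟨hc.1, rfl⟩).symm
      rw [h1]
      exact Finset.single_le_sum (f := fun j => gnew P j U y (x :: t))
        (fun j _ => ind_nonneg _) (Finset.mem_range.2 hc.2)
    · rw [ind_false hc]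
      exact Finset.sum_nonneg (fun j _ => ind_nonneg _)

/-- the annealed failure probability -/
theorem Ex_bnd (hpt0 : 0 ≤ P.pt) (hpt1 : P.pt ≤ 1) (hp0 : 0 ≤ P.p1)
    (hp1 : P.p1 ≤ 1) {a θ : ℝ} (ha : 0 < a) (hna : (n : ℝ) * P.pt ≤ 1 - a) (hθ0 : 0 ≤ θ)
    (hθ : (n : ℝ) * P.p1 ≤ 1 + θ) (hk0 : 1 ≤ P.k0) (hkn : (P.k0 : ℝ) < n)
    (v : Fin n) (hv : v ∉ P.R) {K π : ℝ}
    (hK : Ex (fun U => ((min (comp (GU U P.p1) v).card P.k0 : ℕ) : ℝ)) ≤ K)
    (hπ : Ex (fun U => ind (P.k0 ≤ (comp (GU U P.p1) v).card)) ≤ π)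
    {q : ℝ} (hq0 : 0 < q) {m0 : ℕ}
    (hq : ∀ m, m0 ≤ m → ∀ (B : Finset (Fin n)) (y : Fin n), B.card < P.k0 →
      (∀ w ∈ B, w ∉ P.R) → y ∉ B →
      q ≤ Ex (fun U => Hm P (P.w P.pt) B y m U)) (M m : ℕ)
    {b : ℝ} (hb : P.k0 * (1 + θ + θ * K) / (n - P.k0) + P.R.card * K / (n - P.k0) ≤ b) :
    Ex (fun U => bnd P M m v U) ≤ b + (P.k0 : ℝ)⁻¹ * (1 + M * ((1 + (b + π) / q) / a)) := by
  have hN : ∀ m, Ex (fun U => oc (Dt P U) (gN U) m v []) ≤ K := by
    intro m
    refine le_trans ?_ hK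
    apply Ex_mono (BM_oc P (fun y s => BM_gN y s) m v []) (BM_compmin _ _ _)
    intro U
    have h := oc_new (Dt P U) (comp (GU U P.p1) v) (comp_closed P U v) m v []
      (by rw [vis_nil]; simpa using self_mem_comp _ v)
      (by rw [vis_nil, Finset.card_singleton]; exact hk0)
    refine h.trans ?_
    have : (0:ℝ) ≤ ((vis v ([] : List (Fin n))).card : ℝ) := Nat.cast_nonneg _
    show ((min (comp (GU U P.p1) v).card P.k0 : ℕ) : ℝ) - (vis v ([] : List (Fin n))).card ≤ _
    linarith
  have h1 : ∀ m, Ex (fun U => oc (Dt P U) (gC P U) m v []) ≤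
      P.k0 * (1 + θ + θ * K) / (n - P.k0) := fun m =>
    Ex_clo P hp0 hp1 hθ0 hθ hk0 hkn m v (hN m)
  have h2 : ∀ m, Ex (fun U => oc (Dt P U) (gR P U) m v []) ≤ P.R.card * K / (n - P.k0) :=
    fun m => Ex_R P hkn m v (hN m)
  have h3 : ∀ m, Ex (fun U => Bf (Dt P U) m v []) ≤ b + π := by
    intro m
    have := Ex_Bf P v hv m (h1 m) (h2 m) hπ
    linarith
  have h4 : ∀ j, Ex (fun U => oc (Dt P U) (gL P j U) m v []) ≤ (b + π) / q := by
    intro j
    rw [le_div_iff₀ hq0, mul_comm]
    exact Ex_L P hq0.le hq j m v (h3 (m + m0))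
  have h5 : ∀ j, Ex (fun U => oc (Dt P U) (gnew P j U) m v []) ≤ (1 + (b + π) / q) / a := by
    intro j
    rw [le_div_iff₀ ha]
    have h6 := Ex_newj P hpt0 hpt1 (by linarith) j m v
    have h7 : 0 ≤ Ex (fun U => oc (Dt P U) (gnew P j U) m v []) :=
      Ex_nonneg (fun U => oc_nonneg _ (fun _ _ => ind_nonneg _) _ _ _)
    have h8 := h4 j
    nlinarith
  have bS : BM (fun U => ∑ j ∈ range M, oc (Dt P U) (gnew P j U) m v []) :=
    BM.sum _ (fun j _ => BM_oc P (BM_gnew P j) m v [])
  have e1 : Ex (fun U => bnd P M m v U) =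
      (Ex (fun U => oc (Dt P U) (gC P U) m v []) + Ex (fun U => oc (Dt P U) (gR P U) m v [])) +
      (P.k0 : ℝ)⁻¹ * (1 + ∑ j ∈ range M, Ex (fun U => oc (Dt P U) (gnew P j U) m v [])) := by
    unfold bnd
    rw [Ex_add ((BM_oc P (BM_gC P) m v []).add (BM_oc P (BM_gR P) m v []))
      ((BM.const _).mul ((BM.const _).add bS)),
      Ex_add (BM_oc P (BM_gC P) m v []) (BM_oc P (BM_gR P) m v []), Ex_const_mul,
      Ex_add (BM.const _) bS, Ex_const, Ex_sum _ (fun j _ => BM_oc P (BM_gnew P j) m v [])]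
  rw [e1]
  have h6 : ∑ j ∈ range M, Ex (fun U => oc (Dt P U) (gnew P j U) m v []) ≤
      M * ((1 + (b + π) / q) / a) := by
    calc _ ≤ ∑ _j ∈ range M, ((1 + (b + π) / q) / a) := Finset.sum_le_sum (fun j _ => h5 j)
      _ = _ := by rw [Finset.sum_const, Finset.card_range, nsmul_eq_mul]
  have h7 := mul_le_mul_of_nonneg_left h6 (inv_nonneg.2 (Nat.cast_nonneg P.k0 : (0:ℝ) ≤ P.k0))
  have h8 := h1 m
  have h9 := h2 m
  nlinarith

end

end

end Pool.Agent.TH972.H
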