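import Pool.Agent.TH972.Escape
import Pool.Agent.TH972.H.Total

/-!
# Escape probabilities in the fresh environment
-/

set_option autoImplicit false
set_option linter.unusedSectionVars false

namespace Pool.Agent.TH972.H

open Finset MeasureTheory Pool.Agent.W842.RST Filter Topology

noncomputable section

variable {n : ℕ}

section

variable (P : Prm n)

/-- limit of the hitting probabilities -/
def Hl (c : ℝ) (B : Finset (Fin n)) (y : Fin n) (U : Ev n) : ℝ :=
  hl (off (kap1 P.w P.p1 U) B) (fun v => if v = y then c else 0) P.R ∅ y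

theorem Hm_tendsto {c : ℝ} (hc : 0 ≤ c) (B : Finset (Fin n)) (y : Fin n) (U : Ev n) :
    Tendsto (fun m => Hm P c B y m U) atTop (𝓝 (Hl P c B y U)) :=
  hit_tendsto (off_nonneg (kap1_nonneg P.w0 _ _) _) (Hk0 hc y) y

theorem BM_Hl {c : ℝ} (hc : 0 ≤ c) (B : Finset (Fin n)) (y : Fin n) :
    BM (fun U => Hl P c B y U) := by
  refine ⟨?_, 1, fun U => ?_⟩
  · apply measurable_of_tendsto_metrizable (fun m => (BM_Hm P hc B y m).meas)
    rw [tendsto_pi_nhds]
    exact fun U => Hm_tendsto P hc B y U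
  · unfold Hl
    rw [abs_of_nonneg (hl_nonneg (off_nonneg (kap1_nonneg P.w0 _ _) _) (Hk0 hc y) _)]
    exact hl_le_one (off_nonneg (kap1_nonneg P.w0 _ _) _) (Hk0 hc y) _

theorem Ex_Hm_tendsto {c : ℝ} (hc : 0 ≤ c) (B : Finset (Fin n)) (y : Fin n) :
    Tendsto (fun m => Ex (fun U => Hm P c B y m U)) atTop (𝓝 (Ex (fun U => Hl P c B y U))) := by
  unfold Ex
  apply tendsto_integral_of_dominated_convergence (fun _ => (1:ℝ))
  · intro m
    exact (BM_Hm P hc B y m).meas.aestronglyMeasurable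
  · exact integrable_const _
  · intro m
    apply Filter.Eventually.of_forall
    intro U
    rw [Real.norm_eq_abs]
    unfold Hm
    rw [abs_of_nonneg (hit_nonneg (off_nonneg (kap1_nonneg P.w0 _ _) _) (Hk0 hc y) _ _)]
    exact hit_le_one (off_nonneg (kap1_nonneg P.w0 _ _) _) (Hk0 hc y) _ _
  · exact Filter.Eventually.of_forall (fun U => Hm_tendsto P hc B y U)

open Classical in
/-- the failure of the exploration in the environment -/
def Cf (p0 : ℝ) (B : Finset (Fin n)) (y : Fin n) (h : ℕ) (U : Ev n) : Prop :=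
  Gx P.R h (Bᶜ).card Bᶜ {y} (fun _ => 0) ((edg (Bᶜ)).filter (fun e => U e ≤ p0))

theorem Hl_ge (hb : 0 < P.b) (hcmp : ∀ u, P.w P.pt ≤ P.w u * Real.exp (P.b * (u - P.pt))) {p0 lam Rs : ℝ} (hp01 : p0 ≤ P.p1) (hlam : 0 < lam) (hRs : 0 ≤ Rs)
    (B : Finset (Fin n)) (y : Fin n) (hyB : y ∉ B) (h : ℕ) (U : Ev n) :
    (1 + Rs)⁻¹ * (1 - ind (Cf P p0 B y h U) - ∑ l ∈ range (h + 1),
      Real.exp (-(lam * Rs)) * Wp (phiR lam P.b p0 P.pt) U l y (univ.erase y)) ≤
      Hl P ((P.w P.pt)) B y U := by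
  classical
  set c := (P.w P.pt) with hc
  have hc0 : 0 ≤ c := (P.w0 _).le
  have hHl0 : 0 ≤ Hl P c B y U := hl_nonneg (off_nonneg (kap1_nonneg P.w0 _ _) _) (Hk0 hc0 y) _
  have hS0 : 0 ≤ ∑ l ∈ range (h + 1),
      Real.exp (-(lam * Rs)) * Wp (phiR lam P.b p0 P.pt) U l y (univ.erase y) :=
    Finset.sum_nonneg (fun l _ => mul_nonneg (Real.exp_pos _).le
      (Wp_nonneg (phiR_nonneg _ _ _ _) _ _ _ _))
  have hinv : 0 ≤ (1 + Rs)⁻¹ := by positivity
  by_cases hC : Cf P p0 B y h U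
  · rw [ind_true hC]
    refine le_trans ?_ hHl0
    have : 1 - 1 - ∑ l ∈ range (h + 1),
      Real.exp (-(lam * Rs)) * Wp (phiR lam P.b p0 P.pt) U l y (univ.erase y) ≤ 0 := by linarith
    exact mul_nonpos_of_nonneg_of_nonpos hinv this
  · rw [ind_false hC, sub_zero]
    -- there is a path
    have hpath : ∃ r ∈ P.R, ∃ w : (gr ((edg (Bᶜ)).filter (fun e => U e ≤ p0))).Walk y r,
        w.length ≤ h := by
      by_contra hno
      apply hC
      apply Gx_sound _ _ _ y
      · simpa using hyB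
      · intro a ha
        rw [Finset.mem_singleton] at ha
        subst ha
        exact ⟨SimpleGraph.Walk.nil, by simp⟩
      · exact hno
    obtain ⟨r, hr, w, hw⟩ := hpath
    obtain ⟨l, x, hl1, hinj, hx0, hxl, hadj⟩ := walk_simple w
    have hadj' : ∀ i < l, x i ∉ B ∧ x (i + 1) ∉ B ∧ U s(x i, x (i + 1)) ≤ p0 := by
      intro i hi
      have := hadj i hi
      rw [SimpleGraph.fromEdgeSet_adj, Finset.mem_coe, Finset.mem_filter, mem_edg,
        Finset.mem_compl, Finset.mem_compl] at this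
      exact ⟨this.1.1.1, this.1.1.2.1, this.1.2⟩
    have hcond : ∀ i < l, off (kap1 P.w P.p1 U) B s(x i, x (i + 1)) =
        P.w (U s(x i, x (i + 1))) := by
      intro i hi
      obtain ⟨h1, h2, h3⟩ := hadj' i hi
      unfold off kap1
      have : ¬ ∃ b ∈ B, b ∈ s(x i, x (i + 1)) := by
        rintro ⟨b, hb, hb'⟩
        rw [Sym2.mem_iff] at hb'
        rcases hb' with h4 | h4
        · exact h1 (h4 ▸ hb)
        · exact h2 (h4 ▸ hb)
      rw [if_neg this, if_pos (h3.trans hp01)]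
    set sr := ∑ i ∈ range l, Real.exp (P.b * (U s(x i, x (i + 1)) - P.pt)) with hsr
    have e1 : c * ∑ i ∈ range l, (off (kap1 P.w P.p1 U) B s(x i, x (i + 1)))⁻¹ ≤ sr := by
      rw [Finset.mul_sum]
      apply Finset.sum_le_sum
      intro i hi
      rw [hcond i (Finset.mem_range.1 hi), ← div_eq_mul_inv, div_le_iff₀ (P.w0 _), mul_comm]
      exact hcmp _
    by_cases hheavy : sr ≤ Rs
    · have h5 := escape (κ := off (kap1 P.w P.p1 U) B) (A := P.R) (R := Rs)
        (off_nonneg (kap1_nonneg P.w0 _ _) _) hc0 y l x hinj (by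
          intro i hi
          rw [hcond i hi]; exact P.w0 _) hx0 (by rw [hxl]; exact hr)
        (e1.trans hheavy)
      refine le_trans ?_ h5
      have : 1 - ∑ l ∈ range (h + 1),
        Real.exp (-(lam * Rs)) * Wp (phiR lam P.b p0 P.pt) U l y (univ.erase y) ≤ 1 := by
        linarith
      calc _ ≤ (1 + Rs)⁻¹ * 1 := mul_le_mul_of_nonneg_left this hinv
        _ = _ := mul_one _
    · push Not at hheavy
      refine le_trans ?_ hHl0
      apply mul_nonpos_of_nonneg_of_nonpos hinv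
      have h6 : Real.exp (lam * sr) ≤ Wp (phiR lam P.b p0 P.pt) U l y (univ.erase y) := by
        have h7 := prod_le_Wp (phiR_nonneg lam P.b p0 P.pt) U l x (univ.erase y) hinj (by
          intro i hi hi'
          rw [Finset.mem_erase]
          refine ⟨?_, Finset.mem_univ _⟩
          intro he
          have := hinj (x₁ := i) (x₂ := 0) (by simp only [Set.mem_Iic]; omega)
            (by simp only [Set.mem_Iic]; omega) (by rw [he, hx0])
          omega)
        rw [hx0] at h7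
        refine le_trans (le_of_eq ?_) h7
        rw [hsr, Finset.mul_sum, Real.exp_sum]
        apply Finset.prod_congr rfl
        intro i hi
        unfold phiR
        rw [ind_true (hadj' i (Finset.mem_range.1 hi)).2.2, one_mul]
      have h8 : 1 ≤ Real.exp (-(lam * Rs)) *
          Wp (phiR lam P.b p0 P.pt) U l y (univ.erase y) := by
        calc (1:ℝ) ≤ Real.exp (-(lam * Rs)) * Real.exp (lam * sr) := by
              rw [← Real.exp_add]
              apply Real.one_le_exp
              nlinarith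
          _ ≤ _ := mul_le_mul_of_nonneg_left h6 (Real.exp_pos _).le
      have h9 : Real.exp (-(lam * Rs)) * Wp (phiR lam P.b p0 P.pt) U l y (univ.erase y) ≤
          ∑ l ∈ range (h + 1),
          Real.exp (-(lam * Rs)) * Wp (phiR lam P.b p0 P.pt) U l y (univ.erase y) :=
        Finset.single_le_sum (f := fun l => Real.exp (-(lam * Rs)) *
          Wp (phiR lam P.b p0 P.pt) U l y (univ.erase y))
          (fun l _ => mul_nonneg (Real.exp_pos _).le (Wp_nonneg (phiR_nonneg _ _ _ _) _ _ _ _))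
          (Finset.mem_range.2 (by omega))
      linarith

theorem Ex_Cf {p0 : ℝ} (hp0 : 0 ≤ p0) (hp1 : p0 ≤ 1) (B : Finset (Fin n)) (y : Fin n) (h : ℕ)
    {r : ℝ} (hr : pr p0 (edg (Bᶜ)) (Gx P.R h (Bᶜ).card Bᶜ {y} (fun _ => 0)) ≤ r) :
    Ex (fun U => ind (Cf P p0 B y h U)) ≤ r := by
  classical
  have hr0 : 0 ≤ r := (pr_nonneg hp0 hp1 _ _).trans hr
  apply Ex_ind_le (mset_filter p0 _ _) hr0
  refine (env_le_pr hp0 hp1 (edg (Bᶜ)) _).trans ?_
  exact ENNReal.ofReal_le_ofReal hr

theorem Ex_Hl_ge (hb : 0 < P.b) (hcmp : ∀ u, P.w P.pt ≤ P.w u * Real.exp (P.b * (u - P.pt))) {p0 lam Rs I b d : ℝ} (hp01 : p0 ≤ P.p1) (hp0 : 0 ≤ p0)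
    (hp1 : p0 ≤ 1) (hlam : 0 < lam) (hRs : 0 ≤ Rs)
    (hl1 : lam * Real.exp (P.b * (p0 - P.pt)) ≤ 1) (hI : n * (p0 + 2 / P.b) ≤ I) (hI1 : 1 ≤ I)
    (B : Finset (Fin n)) (y : Fin n) (hyB : y ∉ B) (h : ℕ)
    (hC : pr p0 (edg (Bᶜ)) (Gx P.R h (Bᶜ).card Bᶜ {y} (fun _ => 0)) ≤ 1 - b)
    (hd : (h + 1) * (Real.exp (-(lam * Rs)) * I ^ h) ≤ d) :
    (1 + Rs)⁻¹ * (b - d) ≤ Ex (fun U => Hl P ((P.w P.pt)) B y U) := by
  classical
  have hc0 : 0 ≤ (P.w P.pt) := (P.w0 _).le
  have bC : BM (fun U => ind (Cf P p0 B y h U)) := BM.ind (mset_filter p0 _ _)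
  have bW : ∀ l, BM (fun U : Ev n => Real.exp (-(lam * Rs)) *
      Wp (phiR lam P.b p0 P.pt) U l y (univ.erase y)) := fun l =>
    (BM.const _).mul (BM_Wp (phiR_meas _ _ _ _) (phiR_abs hlam.le hb.le hl1) l y _)
  have h1 : Ex (fun U => (1 + Rs)⁻¹ * (1 - ind (Cf P p0 B y h U) - ∑ l ∈ range (h + 1),
      Real.exp (-(lam * Rs)) * Wp (phiR lam P.b p0 P.pt) U l y (univ.erase y))) ≤
      Ex (fun U => Hl P ((P.w P.pt)) B y U) := by
    apply Ex_mono ((BM.const _).mul (((BM.const 1).sub bC).sub (BM.sum _ (fun l _ => bW l))))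
      (BM_Hl P hc0 B y)
    intro U
    exact Hl_ge P hb hcmp hp01 hlam hRs B y hyB h U
  refine le_trans ?_ h1
  rw [Ex_const_mul, Ex_sub ((BM.const 1).sub bC) (BM.sum _ (fun l _ => bW l)),
    Ex_sub (BM.const 1) bC, Ex_const, Ex_sum _ (fun l _ => bW l)]
  apply mul_le_mul_of_nonneg_left _ (by positivity)
  have h2 := Ex_Cf P hp0 hp1 B y h hC
  have h3 : ∑ l ∈ range (h + 1), Ex (fun U : Ev n => Real.exp (-(lam * Rs)) *
      Wp (phiR lam P.b p0 P.pt) U l y (univ.erase y)) ≤
      (h + 1) * (Real.exp (-(lam * Rs)) * I ^ h) := by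
    calc _ ≤ ∑ _l ∈ range (h + 1), Real.exp (-(lam * Rs)) * I ^ h := by
          apply Finset.sum_le_sum
          intro l hl
          rw [Ex_const_mul]
          apply mul_le_mul_of_nonneg_left _ (Real.exp_pos _).le
          have h4 := Ex_Wp_le (n := n) (phiR_meas lam P.b p0 P.pt)
            (phiR_abs hlam.le hb.le hl1) (phiR_nonneg _ _ _ _) (I := I) (by
              refine le_trans ?_ hI
              apply mul_le_mul_of_nonneg_left _ (Nat.cast_nonneg _)
              exact integral_phiR hlam.le hb hp0 hp1 hl1) l y (univ.erase y)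
            (Finset.notMem_erase _ _)
          refine h4.trans ?_
          apply pow_le_pow_right₀ hI1
          have := Finset.mem_range.1 hl
          omega
      _ = _ := by
          rw [Finset.sum_const, Finset.card_range, nsmul_eq_mul]
          push_cast
          ring
  linarith

end

end

end Pool.Agent.TH972.H
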