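import Pool.Agent.TH972.H.Num1

/-!
# The numerical bound, general weights
-/

set_option autoImplicit false
set_option linter.unusedSectionVars false

namespace Pool.Agent.TH972.H

open Finset MeasureTheory Pool.Agent.W842.RST Filter Topology

noncomputable section

section

variable {n : ℕ} {x y : ℝ} (H : LB n x y) (W : WW n y)

include H

theorem bnd_num (M : ℕ) (hM1 : 1 ≤ M) (hM : (M : ℝ) ^ 2 * x ^ 4 * y ^ 3 ≤ n)
    (R : Finset (Fin n)) (hr1 : y * x ≤ R.card) (hr2 : (R.card : ℝ) ≤ 2 * (y * x))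
    (v : Fin n) (hv : v ∉ R) (m : ℕ) :
    Ex (fun U => bnd (PP W R (kk x y M)) M m v U) ≤ 10000000 * Real.log n ^ 2 / (y * x) := by
  obtain ⟨hθa, hθb, hθc⟩ := theta_facts H
  have hx := H.x_pos
  have hxb := H.x_big
  have hy := H.y_pos
  have hyb := H.y_big
  have hL := H.hL
  have hxL := H.x_L
  have hn := H.n_pos
  have hnb := H.n_big
  have hM1' : (1:ℝ) ≤ M := by exact_mod_cast hM1
  have hk1 := kk_ge H M
  have hk2 := kk_le H hM1
  have hk3 := kk_le_n H hM1 hM
  have hk4 := kk_pos H hM1
  have hr3 := R_le_n H hr2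
  obtain ⟨m0, hm0⟩ := Hm_num H W R (kk x y M) hr1 hr3 hk3
  set θ : ℝ := 1 / y * (1 + 6 * Real.log n) with hθ
  have hθ0 : 0 < θ := lt_of_lt_of_le (by positivity) hθa
  have hθ1 : θ ≤ 1 / 100 := hθb.trans hθc
  set k := kk x y M with hk
  have hk0 : (0:ℝ) < k := by exact_mod_cast hk4
  have hky : (y ^ 2 : ℝ) ≤ k := by
    refine le_trans ?_ hk1
    have : (1:ℝ) ≤ M * x := by nlinarith
    calc y ^ 2 = 1 * y ^ 2 := by ring
      _ ≤ (M * x) * y ^ 2 := mul_le_mul_of_nonneg_right this (by positivity)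
      _ = _ := by ring
  obtain ⟨hK, hπ⟩ := clust_num H k hky v
  rw [← hθ] at hK hπ
  have hkn : (k : ℝ) ≤ n / 2 := by
    refine hk3.trans ?_
    apply div_le_div_of_nonneg_left hn.le (by norm_num)
    linarith
  set b : ℝ := 1 / (y * x) with hb
  have hb0 : 0 < b := by positivity
  have hq0 := qq_pos H
  have key := Ex_bnd (PP W R k)
    (by
      rw [PP_pt]
      apply div_nonneg _ hn.le
      have : 1 / y ≤ 1 := by rw [div_le_one hy]; linarith
      linarith)
    (by
      rw [PP_pt, div_le_one hn]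
      have : 0 < 1 / y := by positivity
      linarith)
    (by rw [PP_p1]; positivity)
    (by rw [PP_p1, div_le_one hn]; linarith)
    (a := 1 / y) (θ := θ) (K := 60 * θ * k) (π := 60 * θ) (by positivity)
    (by rw [PP_pt]; apply le_of_eq; field_simp)
    hθ0.le
    (by rw [PP_p1, ← hθ]; apply le_of_eq; field_simp)
    (by rw [PP_k0]; exact hk4) (by rw [PP_k0]; linarith) v (by rw [PP_R]; exact hv)
    (by rw [PP_p1, PP_k0, ← hθ]; exact hK) (by rw [PP_p1, PP_k0, ← hθ]; exact hπ) hq0 hm0 M m
    (b := b) ?_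
  · rw [PP_k0] at key
    refine key.trans ?_
    -- (b + π) / q ≤ 3.5e6 L^2
    have hbθ : b ≤ θ := by
      refine le_trans ?_ hθa
      rw [hb]
      apply div_le_div_of_nonneg_left (by norm_num) hy
      nlinarith
    have h1 : (b + 60 * θ) / qq n y ≤ 3500000 * Real.log n ^ 2 := by
      rw [div_le_iff₀ hq0]
      have h2 : b + 60 * θ ≤ 427 * Real.log n / y := by
        have e : 427 * Real.log n / y = 61 * (7 * Real.log n / y) := by ring
        rw [e]
        linarith
      have h3 : 1 / (8016 * (y * Real.log n)) ≤ qq n y := by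
        unfold qq
        rw [div_div]
        apply div_le_div_of_nonneg_left (by norm_num) (by positivity)
        have : y * (16 * (1 + 500 * Real.log n)) = 16 * y + 8000 * (y * Real.log n) := by ring
        rw [this]
        nlinarith
      calc b + 60 * θ ≤ 427 * Real.log n / y := h2
        _ ≤ 3500000 * Real.log n ^ 2 * (1 / (8016 * (y * Real.log n))) := by
            have e : 3500000 * Real.log n ^ 2 * (1 / (8016 * (y * Real.log n))) =
              (3500000 / 8016) * Real.log n / y := by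
              have : Real.log n ≠ 0 := by linarith
              field_simp
            rw [e]
            apply div_le_div_of_nonneg_right _ hy.le
            nlinarith
        _ ≤ _ := mul_le_mul_of_nonneg_left h3 (by positivity)
    have hL2 : 1 ≤ Real.log n ^ 2 := by nlinarith
    have h4 : (1 + (b + 60 * θ) / qq n y) / (1 / y) ≤ 3500001 * Real.log n ^ 2 * y := by
      rw [div_div_eq_mul_div, div_one]
      apply mul_le_mul_of_nonneg_right _ hy.le
      linarith
    have h5 : (k : ℝ)⁻¹ ≤ (M * y ^ 2 * x)⁻¹ := inv_anti₀ (by positivity) hk1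
    have h6 : 1 + M * ((1 + (b + 60 * θ) / qq n y) / (1 / y)) ≤
        M * (3500002 * Real.log n ^ 2 * y) := by
      have h7 := mul_le_mul_of_nonneg_left h4 (show (0:ℝ) ≤ M by linarith)
      have h8 : (1:ℝ) ≤ M * (Real.log n ^ 2 * y) := by
        have : (1:ℝ) ≤ Real.log n ^ 2 * y := by nlinarith
        nlinarith
      nlinarith
    calc b + (k : ℝ)⁻¹ * (1 + M * ((1 + (b + 60 * θ) / qq n y) / (1 / y)))
        ≤ b + (M * y ^ 2 * x)⁻¹ * (M * (3500002 * Real.log n ^ 2 * y)) := by
          apply add_le_add_right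
          apply mul_le_mul h5 h6 _ (by positivity)
          have : 0 < qq n y := hq0
          positivity
      _ = (1 + 3500002 * Real.log n ^ 2) / (y * x) := by
          have hM0 : (M : ℝ) ≠ 0 := by linarith
          have e : ((M : ℝ) * y ^ 2 * x)⁻¹ * (M * (3500002 * Real.log n ^ 2 * y)) =
              3500002 * Real.log n ^ 2 / (y * x) := by
            rw [← div_eq_inv_mul, div_eq_div_iff (by positivity) (by positivity)]
            ring
          rw [e, hb, ← add_div]
      _ ≤ 10000000 * Real.log n ^ 2 / (y * x) := by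
          apply div_le_div_of_nonneg_right _ (by positivity)
          linarith
  · -- the closing probability
    rw [PP_k0, PP_R]
    have hnk : (n : ℝ) / 2 ≤ n - k := by linarith
    have hnk0 : (0:ℝ) < n - k := by linarith
    have hθk : 1 ≤ θ ^ 2 * k := by
      have h1 : (1 / y) ^ 2 ≤ θ ^ 2 := pow_le_pow_left₀ (by positivity) hθa 2
      calc (1:ℝ) = (1 / y) ^ 2 * y ^ 2 := by field_simp
        _ ≤ θ ^ 2 * k := mul_le_mul h1 hky (by positivity) (by positivity)
    rw [← add_div]
    have h1 : (k : ℝ) * (1 + θ + θ * (60 * θ * k)) + R.card * (60 * θ * k) ≤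
        62 * (θ * k) ^ 2 + 120 * (y * x) * (θ * k) := by
      have h2 : 1 + θ + θ * (60 * θ * k) ≤ 62 * (θ ^ 2 * k) := by nlinarith
      have h3 := mul_le_mul_of_nonneg_left h2 hk0.le
      have h4 : (R.card : ℝ) * (60 * θ * k) ≤ 2 * (y * x) * (60 * θ * k) :=
        mul_le_mul_of_nonneg_right hr2 (by positivity)
      nlinarith
    have hθk2 : θ * k ≤ 14 * Real.log n * (M * y * x) := by
      calc θ * k ≤ 7 * Real.log n / y * (2 * (M * y ^ 2 * x)) := by
            apply mul_le_mul hθb hk2 hk0.le (by positivity)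
        _ = 14 * Real.log n * (M * y * x) := by field_simp; ring
    have h2 : 62 * (θ * k) ^ 2 ≤ 12152 * Real.log n ^ 2 * ((M : ℝ) ^ 2 * y ^ 2 * x ^ 2) := by
      have := pow_le_pow_left₀ (by positivity : 0 ≤ θ * k) hθk2 2
      nlinarith
    have h3 : 120 * (y * x) * (θ * k) ≤ 1680 * Real.log n * (M * y ^ 2 * x ^ 2) := by
      have := mul_le_mul_of_nonneg_left hθk2 (show 0 ≤ 120 * (y * x) by positivity)
      refine this.trans (le_of_eq ?_)
      ring
    have h4 : 12152 * Real.log n ^ 2 * ((M : ℝ) ^ 2 * y ^ 2 * x ^ 2) ≤ n / 4 * b := by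
      rw [hb, mul_one_div, le_div_iff₀ (by positivity)]
      have h5 : 12152 * Real.log n ^ 2 * 4 ≤ x := by
        have := H.x_log 2 (by norm_num)
        nlinarith
      calc 12152 * Real.log n ^ 2 * ((M : ℝ) ^ 2 * y ^ 2 * x ^ 2) * (y * x) =
            (12152 * Real.log n ^ 2 * 4) * ((M : ℝ) ^ 2 * x ^ 3 * y ^ 3) / 4 := by ring
        _ ≤ x * ((M : ℝ) ^ 2 * x ^ 3 * y ^ 3) / 4 := by
            apply div_le_div_of_nonneg_right _ (by norm_num)
            exact mul_le_mul_of_nonneg_right h5 (by positivity)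
        _ = (M : ℝ) ^ 2 * x ^ 4 * y ^ 3 / 4 := by ring
        _ ≤ (n : ℝ) / 4 := div_le_div_of_nonneg_right hM (by norm_num)
    have h5 : 1680 * Real.log n * ((M : ℝ) * y ^ 2 * x ^ 2) ≤ n / 4 * b := by
      rw [hb, mul_one_div, le_div_iff₀ (by positivity)]
      have h6 := M_small H hM (c := 6720 * Real.log n) (by positivity) (by nlinarith)
      calc 1680 * Real.log n * ((M : ℝ) * y ^ 2 * x ^ 2) * (y * x) =
            (6720 * Real.log n * ((M : ℝ) * x ^ 3 * y ^ 3)) / 4 := by ring
        _ ≤ (n : ℝ) / 4 := div_le_div_of_nonneg_right h6 (by norm_num)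
    rw [div_le_iff₀ hnk0]
    have h6 : (n : ℝ) / 2 * b ≤ b * (n - k) := by
      rw [mul_comm]
      exact mul_le_mul_of_nonneg_left hnk hb0.le
    linarith

end

end

end Pool.Agent.TH972.H
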