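import Pool.Agent.TH972.Lower
import Pool.Agent.TH972.H.Num2

/-!
# The lower bound in a fixed environment, general weights
-/

set_option autoImplicit false
set_option linter.unusedSectionVars false

namespace Pool.Agent.TH972.H

open Finset MeasureTheory Pool.Agent.W842.RST Filter Topology

noncomputable section

variable {n : ℕ}

/-- the conductances in the environment `U` -/
def kU (w : ℝ → ℝ) (U : Ev n) (e : Sym2 (Fin n)) : ℝ := w (U e)

theorem kU_pos {w : ℝ → ℝ} (hw : ∀ u, 0 < w u) (U : Ev n) (e : Sym2 (Fin n)) : 0 < kU w U e :=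
  hw _

theorem good_kU (w : ℝ → ℝ) (p1 : ℝ) (U : Ev n) :
    good (kU w U) (fun e => ¬ (U e ≤ p1)) = kap1 w p1 U := by
  funext e
  unfold good kap1 kU
  by_cases h : U e ≤ p1
  · rw [if_pos h, if_neg (not_not.2 h)]
  · rw [if_neg h, if_pos h]

theorem cs_pos (hn : 2 ≤ n) {w : ℝ → ℝ} (hw : ∀ u, 0 < w u) (U : Ev n) (x : Fin n) : 0 < cs (kU w U) x := by
  have hne : ∃ y : Fin n, x ≠ y := by
    have : Nontrivial (Fin n) := Fin.nontrivial_iff_two_le.2 hn
    obtain ⟨y, hy⟩ := exists_ne x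
    exact ⟨y, hy.symm⟩
  obtain ⟨y, hy⟩ := hne
  unfold cs
  have h1 : 0 < Kc (kU w U) x y := by
    unfold Kc
    rw [if_neg hy]
    exact kU_pos hw _ _
  exact lt_of_lt_of_le h1 (Finset.single_le_sum (f := fun y => Kc (kU w U) x y)
    (fun y _ => Kc_nonneg (fun e => (kU_pos hw U e).le) x y) (Finset.mem_univ y))

theorem sum_tr_one (hn : 2 ≤ n) {w : ℝ → ℝ} (hw : ∀ u, 0 < w u) (U : Ev n) (x : Fin n) :
    ∑ y, tr (kU w U) x y = 1 := by
  unfold tr
  rw [← Finset.sum_div]
  exact div_self (cs_pos hn hw U x).ne'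

theorem tr_lower (hn : 2 ≤ n) {w : ℝ → ℝ} (hw : ∀ u, 0 < w u) (ha : Antitone w) {U : Ev n}
    (hU : ∀ e, 0 ≤ U e ∧ U e ≤ 1)
    (x z : Fin n) (hxz : x ≠ z) : w 1 / (n * w 0) ≤ tr (kU w U) x z := by
  unfold tr
  have hn0 : (0:ℝ) < n := by
    have : 0 < n := by omega
    exact_mod_cast this
  apply div_le_div₀ (Kc_nonneg (fun e => (kU_pos hw U e).le) x z) _ (cs_pos hn hw U x) _
  · unfold Kc kU
    rw [if_neg hxz]
    exact ha (hU s(x, z)).2
  · unfold cs
    calc ∑ y, Kc (kU w U) x y ≤ ∑ _y : Fin n, w 0 := by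
          apply Finset.sum_le_sum
          intro y _
          unfold Kc kU
          split_ifs
          · exact (hw 0).le
          · exact ha (hU s(x, y)).1
      _ = n * w 0 := by simp

/-- the walk from `v` uses an edge above level `p1` before it visits `z` -/
theorem crs_num (hn : 2 ≤ n) {w : ℝ → ℝ} (hw : ∀ u, 0 < w u) (ha : Antitone w) {p0 p1 : ℝ}
    (U : Ev n)
    (v z : Fin n) (hvz : (GU U p0).Reachable v z) (m : ℕ) :
    crs (kU w U) (fun e => ¬ (U e ≤ p1)) z m v ≤ (n : ℝ) ^ 3 * (w p1 / w p0) := by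
  have hw0 := hw p0
  have hw1 := hw p1
  by_cases h : v = z
  · rw [h, crs_z]; positivity
  obtain ⟨q⟩ := hvz
  obtain ⟨l, x, _, hinj, hx0, hxl, hadj⟩ := walk_simple q
  have hκ : ∀ e, 0 ≤ kU w U e := fun e => (kU_pos hw U e).le
  have h1 := crs_le hκ (fun e => ¬ (U e ≤ p1)) h l x hinj (fun i _ => kU_pos hw _ _) hx0 hxl
    (cs_pos hn hw U v) (B := w p1) (by
      intro e he
      unfold kU
      push Not at he
      exact ha he.le) hw1.le m
  refine h1.trans ?_
  rw [Fintype.card_fin]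
  have hln : (l : ℝ) ≤ n := by
    have h2 : (Finset.range (l + 1)).card ≤ (univ : Finset (Fin n)).card := by
      apply Finset.card_le_card_of_injOn x (fun i _ => Finset.mem_univ _)
      intro a ha b hb hab
      rw [Finset.mem_coe, Finset.mem_range] at ha hb
      exact hinj (by simp only [Set.mem_Iic]; omega) (by simp only [Set.mem_Iic]; omega) hab
    rw [Finset.card_range, Finset.card_univ, Fintype.card_fin] at h2
    have : l ≤ n := by omega
    exact_mod_cast this
  have h2 : ∑ i ∈ range l, (kU w U s(x i, x (i + 1)))⁻¹ ≤ n * (w p0)⁻¹ := by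
    calc ∑ i ∈ range l, (kU w U s(x i, x (i + 1)))⁻¹ ≤ ∑ _i ∈ range l, (w p0)⁻¹ := by
          apply Finset.sum_le_sum
          intro i hi
          have h3 := hadj i (Finset.mem_range.1 hi)
          rw [GU_adj] at h3
          unfold kU
          exact inv_anti₀ hw0 (ha h3.1)
      _ = l * (w p0)⁻¹ := by rw [Finset.sum_const, Finset.card_range, nsmul_eq_mul]
      _ ≤ _ := mul_le_mul_of_nonneg_right hln (inv_pos.2 hw0).le
  calc (n : ℝ) ^ 2 * w p1 * ∑ i ∈ range l, (kU w U s(x i, x (i + 1)))⁻¹ ≤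
        (n : ℝ) ^ 2 * w p1 * (n * (w p0)⁻¹) :=
        mul_le_mul_of_nonneg_left h2 (by positivity)
    _ = _ := by rw [div_eq_mul_inv]; ring

/-- the bound in a fixed environment, for one starting vertex -/
theorem point_bound (hn : 2 ≤ n) (P : Prm n) {p0 : ℝ} (hpt : P.pt ≤ P.p1)
    {U : Ev n}
    (hU : ∀ e, 0 ≤ U e ∧ U e ≤ 1) (M l0 s : ℕ) (hk0 : 0 < P.k0) (hkn : P.k0 ≤ n) (hks : P.k0 < s)
    (v0 : Fin n) (hs : s ≤ (comp (GU U p0) v0).card) (m : ℕ) (v : Fin n)
    (hv : v ∈ comp (GU U p0) v0) (hvR : v ∉ P.R) :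
    1 - GG (kU P.w U) (fun T => l0 ≤ T.diam) ≤
      (n : ℝ) * ((n : ℝ) ^ 3 * (P.w P.p1 / P.w p0)) +
        n * (1 - P.w 1 / (n * P.w 0)) ^ m + bnd P M m v U + TopF P.pt P.p1 M l0 U := by
  classical
  have : Nonempty (Fin n) := ⟨v⟩
  have hκ : ∀ e, 0 ≤ kU P.w U e := fun e => (kU_pos P.w0 U e).le
  have hκ' : ∀ e, 0 < kU P.w U e := fun e => kU_pos P.w0 U e
  have hw0 := P.w0 p0
  have hw1 := P.w0 P.p1
  set B : ℝ := (n : ℝ) ^ 3 * (P.w P.p1 / P.w p0) with hB
  have hB0 : 0 ≤ B := by positivity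
  have hn0 : (0:ℝ) < n := by
    have : 0 < n := by omega
    exact_mod_cast this
  set d : ℝ := P.w 1 / (n * P.w 0) with hd
  have hd1 : d ≤ 1 := by
    rw [hd, div_le_one (mul_pos hn0 (P.w0 0))]
    have h1 : P.w 1 ≤ P.w 0 := P.wa zero_le_one
    have h2 : (1:ℝ) ≤ n := by
      have : 1 ≤ n := by omega
      exact_mod_cast this
    have h3 := P.w0 0
    nlinarith
  have hfb := fail_bound hκ (sum_tr_one hn P.w0 U) (fun e => ¬ (U e ≤ P.p1)) P.k0 s
    (by rw [Fintype.card_fin]; exact hkn) hks (LTP (Dt P U) M)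
    (fun S S' h => LTP_mono (Dt P U) M S S' h) (comp (GU U p0) v0) hs hd1
    (fun x z hxz => tr_lower hn P.w0 P.wa hU x z hxz) m v (B := B) (by
      intro z hz
      apply crs_num hn P.w0 P.wa U v z
      rw [mem_comp] at hv hz
      exact hv.symm.trans hz) hB0
  rw [Fintype.card_fin, good_kU] at hfb
  have hfg := failG_le_bnd P hk0 M m v hvR U
  have hZ : 0 < sumT (kU P.w U) (fun _ => True) := sumT_pos hκ'
  have h1 : 1 - ((comp (GU U p0) v0).card / ((s : ℝ) - P.k0) * B + n * (1 - d) ^ m +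
      bnd P M m v U) ≤ GG (kU P.w U) (fun T => LTP (Dt P U) M T.edgeSet) := by
    unfold GG
    rw [le_div_iff₀ hZ, mul_comm]
    refine le_trans (mul_le_mul_of_nonneg_left ?_ hZ.le) hfb
    linarith
  have h2 : (comp (GU U p0) v0).card / ((s : ℝ) - P.k0) * B ≤ n * B := by
    apply mul_le_mul_of_nonneg_right _ hB0
    have h3 : (1:ℝ) ≤ (s : ℝ) - P.k0 := by
      have : (P.k0 : ℝ) + 1 ≤ s := by exact_mod_cast hks
      linarith
    have h4 : ((comp (GU U p0) v0).card : ℝ) ≤ n := by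
      have := Finset.card_le_univ (comp (GU U p0) v0)
      rw [Fintype.card_fin] at this
      exact_mod_cast this
    calc ((comp (GU U p0) v0).card : ℝ) / ((s : ℝ) - P.k0) ≤ (comp (GU U p0) v0).card / 1 :=
          div_le_div_of_nonneg_left (Nat.cast_nonneg _) (by norm_num) h3
      _ ≤ n := by rw [div_one]; exact h4
  have h3 : GG (kU P.w U) (fun T => LTP (Dt P U) M T.edgeSet) ≤
      GG (kU P.w U) (fun T => l0 ≤ T.diam) + TopF P.pt P.p1 M l0 U := by
    by_cases hex : ∃ (l : ℕ) (p : ℕ → Fin n), Set.InjOn p (Set.Iic l) ∧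
        (∀ i < l, U s(p i, p (i + 1)) ≤ P.p1) ∧
        M ≤ ((range l).filter (fun i => P.pt < U s(p i, p (i + 1)))).card ∧ l < l0
    · obtain ⟨l, p, a1, a2, a3, a4⟩ := hex
      have h5 := one_le_TopF hpt a1 a2 (M := M) (by convert a3) a4
      have h6 := GG_le_one hκ' (fun T => LTP (Dt P U) M T.edgeSet)
      have h7 := GG_nonneg hκ' (fun T => l0 ≤ T.diam)
      linarith
    · have h5 : GG (kU P.w U) (fun T => LTP (Dt P U) M T.edgeSet) ≤
          GG (kU P.w U) (fun T => l0 ≤ T.diam) := by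
        apply GG_mono hκ'
        rintro T hT ⟨l, p, a1, a2, a3, a4⟩
        by_contra hcon
        push Not at hcon
        apply hex
        refine ⟨l, p, a1, a3, by convert a4; exact Iff.rfl, ?_⟩
        have := diam_ge_of_path T hT a1 a2
        omega
      have h6 := TopF_nonneg hpt M l0 U
      linarith
  linarith

end

end Pool.Agent.TH972.H
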