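import Pool.Agent.TH972.H.LowerNum

/-!
# The heavy-tailed weights
-/

set_option autoImplicit false

namespace Pool.Agent.TH972.H

open Finset MeasureTheory Pool.Agent.W842.RST Filter Topology

noncomputable section

namespace Hv

/-- the truncated weight `exp (u ^ (-γ))` -/
def wt (γ δ b u : ℝ) : ℝ := Real.exp (max u δ ^ (-γ) + b * max (-u) 0)

theorem wt_pos (γ δ b u : ℝ) : 0 < wt γ δ b u := Real.exp_pos _

theorem wt_anti {γ δ b : ℝ} (hγ : 0 ≤ γ) (hδ : 0 < δ) (hb : 0 ≤ b) : Antitone (wt γ δ b) := by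
  intro u v huv
  unfold wt
  apply Real.exp_le_exp.2
  apply add_le_add
  · exact Real.rpow_le_rpow_of_nonpos (lt_max_of_lt_right hδ) (max_le_max huv le_rfl)
      (by linarith)
  · apply mul_le_mul_of_nonneg_left _ hb
    exact max_le_max (by linarith) le_rfl

theorem wt_ge {γ δ b u : ℝ} (h0 : 0 ≤ u) (h : δ ≤ u) : wt γ δ b u = Real.exp (u ^ (-γ)) := by
  unfold wt
  rw [max_eq_left h, max_eq_right (by linarith), mul_zero, add_zero]

/-- the tangent inequality -/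
theorem tang {γ a u : ℝ} (hγ : 0 ≤ γ) (ha : 0 < a) (hu : 0 < u) :
    a ^ (-γ) * (1 - γ * (u / a - 1)) ≤ u ^ (-γ) := by
  have hr : 0 < u / a := div_pos hu ha
  have e1 : u ^ (-γ) = a ^ (-γ) * (u / a) ^ (-γ) := by
    rw [← Real.mul_rpow ha.le hr.le]
    congr 1
    field_simp
  rw [e1]
  apply mul_le_mul_of_nonneg_left _ (Real.rpow_pos_of_pos ha _).le
  rw [Real.rpow_def_of_pos hr]
  have h1 := Real.add_one_le_exp (Real.log (u / a) * -γ)
  have h2 := Real.log_le_sub_one_of_pos hr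
  have h3 := mul_le_mul_of_nonneg_left h2 hγ
  linarith

theorem wt_cmp {γ δ a b : ℝ} (hγ : 0 ≤ γ) (hδ : 0 < δ) (hδa : δ ≤ a)
    (hb : b = γ * a ^ (-γ) / a) (hA : a ^ (-γ) * (1 + γ) ≤ δ ^ (-γ)) (u : ℝ) :
    wt γ δ b a ≤ wt γ δ b u * Real.exp (b * (u - a)) := by
  have ha : 0 < a := lt_of_lt_of_le hδ hδa
  have hA0 : 0 < a ^ (-γ) := Real.rpow_pos_of_pos ha _
  have hba : b * a = γ * a ^ (-γ) := by rw [hb]; field_simp
  rw [wt_ge ha.le hδa]
  unfold wt
  rw [← Real.exp_add]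
  apply Real.exp_le_exp.2
  rcases le_or_gt δ u with h | h
  · have hu : 0 < u := lt_of_lt_of_le hδ h
    rw [max_eq_left h, max_eq_right (by linarith), mul_zero, add_zero]
    have h1 := tang hγ ha hu
    have e : a ^ (-γ) * (1 - γ * (u / a - 1)) = a ^ (-γ) - b * (u - a) := by
      rw [hb]; field_simp
    rw [e] at h1
    linarith
  · rw [max_eq_right h.le]
    have h1 : 0 ≤ b * (max (-u) 0 + u) := by
      apply mul_nonneg
      · rw [hb]; positivity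
      · have := le_max_left (-u) 0
        linarith
    have e : δ ^ (-γ) + b * max (-u) 0 + b * (u - a) =
        δ ^ (-γ) - b * a + b * (max (-u) 0 + u) := by ring
    rw [e, hba]
    linarith

theorem wt_drop {γ δ a b p0 p1 : ℝ} (hγ0 : 0 ≤ γ) (hγ1 : γ ≤ 1) (hδ : 0 < δ) (hδ0 : δ ≤ p0)
    (h01 : p0 ≤ p1) (hap : a ≤ p1) (ha : 0 < a) (hr : 19 / 20 ≤ a / p1)
    (hb : b = γ * a ^ (-γ) / a) {c : ℝ} (hc : 5 * c ≤ 5 / 6 * (b * (p1 - p0))) :
    wt γ δ b p1 ≤ wt γ δ b p0 * Real.exp (-(5 * c)) := by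
  have hp0 : 0 < p0 := lt_of_lt_of_le hδ hδ0
  have hp1 : 0 < p1 := lt_of_lt_of_le hp0 h01
  rw [wt_ge hp0.le hδ0, wt_ge hp1.le (hδ0.trans h01), ← Real.exp_add]
  apply Real.exp_le_exp.2
  have h1 := tang hγ0 hp1 hp0
  have e : p1 ^ (-γ) * (1 - γ * (p0 / p1 - 1)) =
      p1 ^ (-γ) + γ * (p1 ^ (-γ) / p1) * (p1 - p0) := by field_simp; ring
  rw [e] at h1
  -- compare the slopes
  have hd : 0 ≤ p1 - p0 := by linarith
  have hr1 : a / p1 ≤ 1 := by rw [div_le_one hp1]; exact hap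
  have hr0 : 0 < a / p1 := div_pos ha hp1
  have h2 : a ^ (-γ) / a * (5 / 6) ≤ p1 ^ (-γ) / p1 := by
    have e1 : p1 ^ (-γ) = a ^ (-γ) * (a / p1) ^ γ := by
      have : (a / p1) ^ γ = (p1 / a) ^ (-γ) := by
        rw [Real.rpow_neg (div_pos hp1 ha).le, ← Real.inv_rpow (div_pos hp1 ha).le, inv_div]
      rw [this, ← Real.mul_rpow ha.le (div_pos hp1 ha).le]
      congr 1
      field_simp
    rw [e1]
    have h3 : a / p1 ≤ (a / p1) ^ γ := by
      calc a / p1 = (a / p1) ^ (1:ℝ) := (Real.rpow_one _).symm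
        _ ≤ (a / p1) ^ γ := Real.rpow_le_rpow_of_exponent_ge hr0 hr1 hγ1
    have h4 : (5:ℝ) / 6 ≤ (a / p1) ^ γ * (a / p1) := by
      calc (5:ℝ) / 6 ≤ 19 / 20 * (19 / 20) := by norm_num
        _ ≤ (a / p1) ^ γ * (a / p1) := mul_le_mul (hr.trans h3) hr (by norm_num) (by positivity)
    have e2 : a ^ (-γ) * (a / p1) ^ γ / p1 = a ^ (-γ) / a * ((a / p1) ^ γ * (a / p1)) := by
      field_simp
    rw [e2]
    exact mul_le_mul_of_nonneg_left h4 (by positivity)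
  have h3 : b * (5 / 6) ≤ γ * (p1 ^ (-γ) / p1) := by
    have := mul_le_mul_of_nonneg_left h2 hγ0
    calc b * (5 / 6) = γ * (a ^ (-γ) / a * (5 / 6)) := by rw [hb]; ring
      _ ≤ _ := this
  have h4 := mul_le_mul_of_nonneg_right h3 hd
  linarith

end Hv

end

end Pool.Agent.TH972.H
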