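import Pool.Agent.TH972.RAsym
import Pool.Agent.W842.RST.Asym
import Pool.Agent.TH972.H.LowerNum
import Pool.Agent.TH972.H.Wt

/-!
# The lower bound for the heavy-tailed model
-/

set_option autoImplicit false
set_option linter.unusedSectionVars false

namespace Pool.Agent.TH972.H

open Finset MeasureTheory Pool.Agent.W842.RST Filter Topology

noncomputable section

namespace Hv

/-- choice of the parameter -/
theorem exists_y {γ : ℝ} (h0 : 0 < γ) (h1 : γ ≤ 1) {n : ℕ} (hn : 0 < n)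
    (hc : 2 ≤ γ * (n : ℝ) ^ γ) :
    ∃ y : ℝ, γ * (n : ℝ) ^ γ ≤ y ∧ y ≤ 2 * (γ * (n : ℝ) ^ γ) ∧
      n * y = γ * ((1 - 1 / y) / n) ^ (-γ) / ((1 - 1 / y) / n) := by
  set c := γ * (n : ℝ) ^ γ with hcd
  have hn0 : (0 : ℝ) < n := by exact_mod_cast hn
  have hcont : ContinuousOn (fun y : ℝ => y * ((1 - 1 / y) ^ γ * (1 - 1 / y)))
      (Set.Icc c (2 * c)) := by
    have h2 : ContinuousOn (fun y : ℝ => 1 - 1 / y) (Set.Icc c (2 * c)) := by
      apply ContinuousOn.sub continuousOn_const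
      apply ContinuousOn.div continuousOn_const continuousOn_id
      intro y hy
      have := hy.1
      simp only [id]
      linarith
    exact continuousOn_id.mul ((h2.rpow_const (fun _ _ => Or.inr h0.le)).mul h2)
  have hmem : c ∈ Set.Icc ((fun y : ℝ => y * ((1 - 1 / y) ^ γ * (1 - 1 / y))) c)
      ((fun y : ℝ => y * ((1 - 1 / y) ^ γ * (1 - 1 / y))) (2 * c)) := by
    constructor
    · have ht0 : 0 ≤ 1 - 1 / c := by
        rw [sub_nonneg, div_le_one (by linarith)]; linarith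
      have ht1 : 1 - 1 / c ≤ 1 := by
        have : 0 < 1 / c := by positivity
        linarith
      have h2 : (1 - 1 / c) ^ γ ≤ 1 := Real.rpow_le_one ht0 ht1 h0.le
      have h3 : 0 ≤ (1 - 1 / c) ^ γ := Real.rpow_nonneg ht0 _
      have h4 : (1 - 1 / c) ^ γ * (1 - 1 / c) ≤ 1 := mul_le_one₀ h2 ht0 ht1
      calc c * ((1 - 1 / c) ^ γ * (1 - 1 / c)) ≤ c * 1 :=
            mul_le_mul_of_nonneg_left h4 (by linarith)
        _ = c := mul_one c
    · have ht0 : 3 / 4 ≤ 1 - 1 / (2 * c) := by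
        have : 1 / (2 * c) ≤ 1 / 4 := one_div_le_one_div_of_le (by norm_num) (by linarith)
        linarith
      have ht1 : 1 - 1 / (2 * c) ≤ 1 := by
        have : 0 < 1 / (2 * c) := by positivity
        linarith
      have h2 : 1 - 1 / (2 * c) ≤ (1 - 1 / (2 * c)) ^ γ := by
        calc 1 - 1 / (2 * c) = (1 - 1 / (2 * c)) ^ (1:ℝ) := (Real.rpow_one _).symm
          _ ≤ _ := Real.rpow_le_rpow_of_exponent_ge (by linarith) ht1 h1
      have h3 : (1:ℝ) / 2 ≤ (1 - 1 / (2 * c)) ^ γ * (1 - 1 / (2 * c)) := by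
        calc (1:ℝ) / 2 ≤ 3 / 4 * (3 / 4) := by norm_num
          _ ≤ _ := mul_le_mul (ht0.trans h2) ht0 (by norm_num) (by positivity)
      calc c = 2 * c * (1 / 2) := by ring
        _ ≤ 2 * c * ((1 - 1 / (2 * c)) ^ γ * (1 - 1 / (2 * c))) :=
            mul_le_mul_of_nonneg_left h3 (by linarith)
  obtain ⟨y, hy, hyc⟩ := intermediate_value_Icc (by linarith : c ≤ 2 * c) hcont hmem
  refine ⟨y, hy.1, hy.2, ?_⟩
  have hy2 : 2 ≤ y := by linarith [hy.1]
  set t := 1 - 1 / y with ht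
  have ht0 : 0 < t := by
    have : 1 / y ≤ 1 / 2 := one_div_le_one_div_of_le (by norm_num) hy2
    linarith
  simp only at hyc
  have htγ : 0 < t ^ γ := Real.rpow_pos_of_pos ht0 _
  have e1 : (t / n) ^ (-γ) = (n : ℝ) ^ γ / t ^ γ := by
    rw [Real.rpow_neg (by positivity), Real.div_rpow ht0.le hn0.le, inv_div]
  have e2 : y = c / (t ^ γ * t) := by
    rw [eq_div_iff (by positivity)]
    exact hyc
  rw [e1]
  calc (n : ℝ) * y = n * (c / (t ^ γ * t)) := by rw [← e2]
    _ = _ := by rw [hcd]; field_simp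

/-- the weights for the parameter `y` -/
def WWh {γ : ℝ} (h0 : 0 < γ) (h1 : γ ≤ 1) {n : ℕ} {x y : ℝ} (H : LB n x y)
    (hy : n * y = γ * ((1 - 1 / y) / n) ^ (-γ) / ((1 - 1 / y) / n)) : WW n y where
  w := wt γ (1 / (n : ℝ) ^ 4) (n * y)
  w0 := wt_pos _ _ _
  wa := wt_anti h0.le (by have := H.n_pos; positivity)
    (by have := H.n_pos; have := H.y_pos; positivity)
  cmp := by
    have hn := H.n_pos
    have hnb := H.n_big
    have hyp := H.y_pos
    have hyb := H.y_big
    have hy1 : 1 / y ≤ 1 / 2 := one_div_le_one_div_of_le (by norm_num) (by linarith)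
    have hδa : 3 * (1 / (n : ℝ) ^ 4) ≤ (1 - 1 / y) / n := by
      rw [le_div_iff₀ hn]
      have e : 3 * (1 / (n : ℝ) ^ 4) * n = 3 / n ^ 3 := by field_simp
      rw [e]
      have h3 : (3:ℝ) / n ^ 3 ≤ 1 / 2 := by
        rw [div_le_div_iff₀ (by positivity) (by norm_num)]
        have : (n : ℝ) ≤ n ^ 3 := le_self_pow₀ (by linarith) (by norm_num)
        linarith
      linarith
    have hδ : 0 < 1 / (n : ℝ) ^ 4 := by positivity
    apply wt_cmp h0.le hδ (by linarith) hy
    -- the truncation level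
    set a := (1 - 1 / y) / n with ha
    set δ := 1 / (n : ℝ) ^ 4 with hδd
    have ha0 : 0 < a := by linarith
    have hr : 3 ≤ a / δ := by rw [le_div_iff₀ hδ]; exact hδa
    have e1 : δ ^ (-γ) = a ^ (-γ) * (a / δ) ^ γ := by
      have h2 : (a / δ) ^ γ = (δ / a) ^ (-γ) := by
        rw [Real.rpow_neg (by positivity), ← Real.inv_rpow (by positivity), inv_div]
      rw [h2, ← Real.mul_rpow ha0.le (by positivity)]
      congr 1
      field_simp
    rw [e1]
    apply mul_le_mul_of_nonneg_left _ (Real.rpow_pos_of_pos ha0 _).le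
    have h3 : Real.exp 1 ≤ a / δ := by
      have := Real.exp_one_lt_d9
      linarith
    calc 1 + γ ≤ Real.exp γ := by have := Real.add_one_le_exp γ; linarith
      _ = (Real.exp 1) ^ γ := by rw [← Real.exp_mul, one_mul]
      _ ≤ (a / δ) ^ γ := Real.rpow_le_rpow (Real.exp_pos _).le h3 h0.le
  drop := by
    have hn := H.n_pos
    have hnb := H.n_big
    have hyp := H.y_pos
    have hyb := H.y_big
    have hL := H.hL
    obtain ⟨hθa, hθb, hθc⟩ := theta_facts H
    have hy1 : 1 / y ≤ 1 / 1000 := one_div_le_one_div_of_le (by norm_num) (by linarith)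
    have hy0 : 0 < 1 / y := by positivity
    set θ := 1 / y * (1 + 6 * Real.log n) with hθ
    have hθ1 : θ ≤ 1 / 100 := hθb.trans hθc
    have hδ : 0 < 1 / (n : ℝ) ^ 4 := by positivity
    have e1 : Real.exp (-(5 * Real.log n)) = 1 / (n : ℝ) ^ 5 := by
      rw [Real.exp_neg, one_div]
      congr 1
      rw [show 5 * Real.log (n : ℝ) = ((5 : ℕ) : ℝ) * Real.log n by norm_num,
        Real.exp_nat_mul, Real.exp_log hn]
    rw [← e1]
    apply wt_drop (a := (1 - 1 / y) / n) h0.le h1 hδ _ _ _ _ _ hy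
    · -- numerical
      have e2 : (n : ℝ) * y * ((1 + θ) / n - (1 + 1 / y) / n) = 6 * Real.log n := by
        rw [hθ]; field_simp; ring
      rw [e2]
      linarith
    · rw [div_le_div_iff₀ (by positivity) hn]
      have : (n : ℝ) ≤ n ^ 4 := le_self_pow₀ (by linarith) (by norm_num)
      have h2 : (n : ℝ) ^ 4 * 1 ≤ (1 + 1 / y) * n ^ 4 := by
        rw [mul_comm]
        exact mul_le_mul_of_nonneg_right (by linarith) (by positivity)
      linarith
    · apply div_le_div_of_nonneg_right _ hn.le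
      linarith
    · apply div_le_div_of_nonneg_right _ hn.le
      linarith
    · apply div_pos _ hn
      linarith
    · rw [div_div_div_cancel_right₀ hn.ne', le_div_iff₀ (by linarith)]
      linarith

/-- the truncation does not matter -/
theorem avg_ge {γ : ℝ} {n : ℕ} (hn : 1 ≤ n) {δ b : ℝ} (hδ0 : 0 < δ) (hδ1 : δ ≤ 1) (hγ : 0 ≤ γ)
    (hb : 0 ≤ b)
    (A : SimpleGraph (Fin n) → Prop) :
    avgw (wt γ δ b) n A ≤ avgw (fun u => Real.exp (u ^ (-γ))) n A + n ^ 2 * δ := by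
  classical
  have hm : Measurable (fun u : ℝ => Real.exp (u ^ (-γ))) := by fun_prop
  have b1 : BM (fun U : Ev n => GG (fun e => wt γ δ b (U e)) A) :=
    BM_GG (wt_pos _ _ _) (wt_anti hγ hδ0 hb).measurable A
  have b2 : BM (fun U : Ev n => GG (fun e => (fun u => Real.exp (u ^ (-γ))) (U e)) A) :=
    BM_GG (fun _ => Real.exp_pos _) hm A
  have b3 : ∀ e : Sym2 (Fin n), BM (fun U : Ev n => ind (U e ≤ δ)) := fun e =>
    BM.ind (measurableSet_le (measurable_pi_apply e) measurable_const)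
  have h1 : Ex (fun U : Ev n => GG (fun e => wt γ δ b (U e)) A) ≤
      Ex (fun U : Ev n => GG (fun e => (fun u => Real.exp (u ^ (-γ))) (U e)) A +
        ∑ e : Sym2 (Fin n), ind (U e ≤ δ)) := by
    apply Ex_mono b1 (b2.add (BM.sum _ (fun e _ => b3 e)))
    intro U
    have h0 : ∀ e ∈ (univ : Finset (Sym2 (Fin n))), 0 ≤ ind (U e ≤ δ) :=
      fun e _ => ind_nonneg _
    by_cases hU : ∀ e, δ < U e
    · have h2 : (fun e => wt γ δ b (U e)) = fun e => Real.exp (U e ^ (-γ)) := by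
        funext e
        exact wt_ge (hδ0.le.trans (hU e).le) (hU e).le
      rw [h2]
      have := Finset.sum_nonneg h0
      linarith
    · push Not at hU
      obtain ⟨e, he⟩ := hU
      have h3 := Finset.single_le_sum h0 (Finset.mem_univ e)
      rw [ind_true he] at h3
      have h4 := GG_le_one (κ := fun e => wt γ δ b (U e)) (fun e => wt_pos _ _ _ _) A
      have h5 := GG_nonneg (κ := fun e => (fun u => Real.exp (u ^ (-γ))) (U e))
        (fun e => Real.exp_pos _) A
      linarith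
  rw [Ex_add b2 (BM.sum _ (fun e _ => b3 e)), Ex_sum _ (fun e _ => b3 e)] at h1
  have h2 : ∑ e : Sym2 (Fin n), Ex (fun U : Ev n => ind (U e ≤ δ)) ≤ n ^ 2 * δ := by
    calc ∑ e : Sym2 (Fin n), Ex (fun U : Ev n => ind (U e ≤ δ)) = ∑ _e : Sym2 (Fin n), δ :=
          Finset.sum_congr rfl (fun e _ => Ex_le hδ0.le hδ1 e)
      _ = (Fintype.card (Sym2 (Fin n)) : ℝ) * δ := by
          rw [Finset.sum_const, Finset.card_univ, nsmul_eq_mul]
      _ ≤ n ^ 2 * δ := by
          apply mul_le_mul_of_nonneg_right _ hδ0.le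
          have h3 : Fintype.card (Sym2 (Fin n)) ≤ n ^ 2 := by
            rw [Sym2.card, Fintype.card_fin, Nat.choose_two_right]
            apply Nat.div_le_of_le_mul
            have : n + 1 - 1 = n := by omega
            rw [this]
            nlinarith
          exact_mod_cast h3
  have h3 : avgw (wt γ δ b) n A = Ex (fun U : Ev n => GG (fun e => wt γ δ b (U e)) A) := rfl
  have h4 : avgw (fun u => Real.exp (u ^ (-γ))) n A =
      Ex (fun U : Ev n => GG (fun e => (fun u => Real.exp (u ^ (-γ))) (U e)) A) := rfl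
  rw [h3, h4]
  linarith

theorem avg_eq (γ : ℝ) (n : ℕ) (A : SimpleGraph (Fin n) → Prop) :
    Pool.Agent.W842.RST.avg γ n A = avgw (fun u => Real.exp (u ^ (-γ))) n A := by
  classical
  unfold Pool.Agent.W842.RST.avg avgw
  have h : ∀ U : Sym2 (Fin n) → ℝ, Pool.Agent.W842.RST.gibbs γ U A =
      GG (fun e => Real.exp (U e ^ (-γ))) A := by
    intro U
    unfold Pool.Agent.W842.RST.gibbs GG sumT
    congr 1
    apply Finset.sum_congr _ (fun _ _ => rfl)
    ext T
    simp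
  simp_rw [h]

/-- the sequence of parameters -/
def yy (γ : ℝ) (n : ℕ) : ℝ :=
  open Classical in
  if h : ∃ y : ℝ, γ * (n : ℝ) ^ γ ≤ y ∧ y ≤ 2 * (γ * (n : ℝ) ^ γ) ∧
      n * y = γ * ((1 - 1 / y) / n) ^ (-γ) / ((1 - 1 / y) / n) then h.choose else 1

theorem yy_spec {γ : ℝ} (h0 : 0 < γ) (h1 : γ ≤ 1) : ∀ᶠ n : ℕ in atTop,
    γ * (n : ℝ) ^ γ ≤ yy γ n ∧ yy γ n ≤ 2 * (γ * (n : ℝ) ^ γ) ∧
      n * yy γ n = γ * ((1 - 1 / yy γ n) / n) ^ (-γ) / ((1 - 1 / yy γ n) / n) := by
  have h2 : Tendsto (fun n : ℕ => γ * (n : ℝ) ^ γ) atTop atTop :=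
    ((tendsto_rpow_atTop h0).comp (tendsto_natCast_atTop_atTop (R := ℝ))).const_mul_atTop h0
  filter_upwards [h2.eventually (eventually_ge_atTop 2), eventually_ge_atTop 1] with n hc hn
  have h := exists_y h0 h1 (by omega : 0 < n) hc
  unfold yy
  rw [dif_pos h]
  exact h.choose_spec

theorem yy_nonneg {γ : ℝ} (h0 : 0 < γ) (n : ℕ) : 0 ≤ yy γ n := by
  unfold yy
  split_ifs with h
  · refine le_trans ?_ h.choose_spec.1
    positivity
  · norm_num

theorem yy_log {γ : ℝ} (h0 : 0 < γ) (h1 : γ ≤ 1) :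
    Tendsto (fun n : ℕ => Real.log (n * yy γ n) / Real.log n) atTop (𝓝 (1 + γ)) := by
  have hL : Tendsto (fun n : ℕ => Real.log n) atTop atTop :=
    Real.tendsto_log_atTop.comp (tendsto_natCast_atTop_atTop (R := ℝ))
  have hlo : Tendsto (fun n : ℕ => (1 + γ) + Real.log γ / Real.log n) atTop (𝓝 (1 + γ)) := by
    simpa using (tendsto_const_nhds (x := 1 + γ)).add (hL.const_div_atTop (Real.log γ))
  have hup : Tendsto (fun n : ℕ => (1 + γ) + Real.log (2 * γ) / Real.log n) atTop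
      (𝓝 (1 + γ)) := by
    simpa using (tendsto_const_nhds (x := 1 + γ)).add (hL.const_div_atTop (Real.log (2 * γ)))
  refine tendsto_of_tendsto_of_tendsto_of_le_of_le' hlo hup ?_ ?_
  · filter_upwards [yy_spec h0 h1, hL.eventually (eventually_ge_atTop 1),
      eventually_ge_atTop 2] with n hy hLn hn
    have hn0 : (0 : ℝ) < n := by
      have : 0 < n := by omega
      exact_mod_cast this
    have hnγ : 0 < (n : ℝ) ^ γ := Real.rpow_pos_of_pos hn0 _
    have hy0 : 0 < yy γ n := lt_of_lt_of_le (by positivity) hy.1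
    rw [le_div_iff₀ (by linarith), add_mul, div_mul_cancel₀ _ (by linarith : Real.log n ≠ 0),
      Real.log_mul hn0.ne' hy0.ne']
    have h2 : Real.log (γ * (n : ℝ) ^ γ) ≤ Real.log (yy γ n) :=
      Real.log_le_log (by positivity) hy.1
    rw [Real.log_mul h0.ne' hnγ.ne', Real.log_rpow hn0] at h2
    linarith
  · filter_upwards [yy_spec h0 h1, hL.eventually (eventually_ge_atTop 1),
      eventually_ge_atTop 2] with n hy hLn hn
    have hn0 : (0 : ℝ) < n := by
      have : 0 < n := by omega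
      exact_mod_cast this
    have hnγ : 0 < (n : ℝ) ^ γ := Real.rpow_pos_of_pos hn0 _
    have hy0 : 0 < yy γ n := lt_of_lt_of_le (by positivity) hy.1
    rw [div_le_iff₀ (by linarith), add_mul, div_mul_cancel₀ _ (by linarith : Real.log n ≠ 0),
      Real.log_mul hn0.ne' hy0.ne']
    have h2 : Real.log (yy γ n) ≤ Real.log (2 * γ * (n : ℝ) ^ γ) :=
      Real.log_le_log hy0 (by rw [mul_assoc]; exact hy.2.1)
    rw [Real.log_mul (by positivity) hnγ.ne', Real.log_rpow hn0] at h2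
    linarith

end Hv

/-- two-sided bound for the heavy-tailed model: weights exp (U ^ (-γ)) -/
theorem heavy_two_sided (γ : ℝ) (h0 : 0 < γ) (h3 : γ < 1 / 3) (ε : ℝ) (hε : 0 < ε) :
    Tendsto (fun n : ℕ => Pool.Agent.W842.RST.avg γ n (fun T =>
      (n : ℝ) ^ (1 / 2 - γ / 2 - ε) ≤ (T.diam : ℝ) ∧
        (T.diam : ℝ) ≤ (n : ℝ) ^ (1 - 2 * γ + ε))) atTop (𝓝 1) := by
  set δ : ℝ := min (min (ε / 8) (γ / 2)) ((1 - 3 * γ) / 11) with hδd
  have hδ : 0 < δ := lt_min (lt_min (by linarith) (by linarith)) (by linarith)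
  have hδ1 : δ ≤ ε / 8 := (min_le_left _ _).trans (min_le_left _ _)
  have hδ2 : δ ≤ γ / 2 := (min_le_left _ _).trans (min_le_right _ _)
  have hδ3 : δ ≤ (1 - 3 * γ) / 11 := min_le_right _ _
  have h1 : γ ≤ 1 := by linarith
  have hβ0 : ∀ n : ℕ, 0 ≤ (n : ℝ) * Hv.yy γ n := fun n =>
    mul_nonneg (Nat.cast_nonneg _) (Hv.yy_nonneg h0 n)
  have hβ := Hv.yy_log h0 h1
  have hLB := eventually_LB h0 hδ (by linarith) (by linarith) hβ0 hβ
  have hbe := eventually_beta h0 hδ (by linarith) hβ0 hβ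
  have hB := diam_bounds γ h0 ε hε
  rw [min_eq_left (by linarith : γ ≤ 1 / 3)] at hB
  have hlim : Tendsto (fun n : ℕ => 1 - ((1 / Real.log n + 1 / (n : ℝ)) +
      (1 - Pool.Agent.W842.RST.avg γ n (fun T =>
      (n : ℝ) ^ (γ - ε) ≤ (T.diam : ℝ) ∧
        (T.diam : ℝ) ≤ (n : ℝ) ^ (1 - 2 * γ + ε))))) atTop (𝓝 1) := by
    have a1 : Tendsto (fun n : ℕ => Real.log n) atTop atTop :=
      Real.tendsto_log_atTop.comp (tendsto_natCast_atTop_atTop (R := ℝ))
    have a2 := a1.const_div_atTop 1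
    have a3 := (tendsto_natCast_atTop_atTop (R := ℝ)).const_div_atTop 1
    have a4 := (tendsto_const_nhds (x := (1 : ℝ))).sub
      ((a2.add a3).add ((tendsto_const_nhds (x := (1 : ℝ))).sub hB))
    simpa using a4
  refine tendsto_of_tendsto_of_tendsto_of_le_of_le' hlim tendsto_const_nhds ?_ ?_
  · filter_upwards [hLB, hbe, Hv.yy_spec h0 h1, eventually_ge_atTop 2] with n H hb hy hn
    have hn1 : (1 : ℝ) ≤ n := by
      have : 1 ≤ n := by omega
      exact_mod_cast this
    have hn0 : (0 : ℝ) < n := by linarith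
    have : Nonempty (Fin n) := ⟨⟨0, by omega⟩⟩
    have hny : (n : ℝ) * Hv.yy γ n / n = Hv.yy γ n := by field_simp
    rw [hny] at H hb
    have hlo := lower_num H (Hv.WWh h0 h1 H hy.2.2)
    have hlo2 := Hv.avg_ge (γ := γ) (n := n) (by omega) (δ := 1 / (n : ℝ) ^ 4)
      (b := n * Hv.yy γ n) (by positivity)
      (by rw [div_le_one (by positivity)]; exact one_le_pow₀ hn1) h0.le (hβ0 n)
      (fun T => Real.sqrt (n / Hv.yy γ n) / ((n : ℝ) ^ δ) ^ 3 ≤ T.diam)
    have e0 : (n : ℝ) ^ 2 * (1 / (n : ℝ) ^ 4) ≤ 1 / (n : ℝ) := by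
      have e1 : (n : ℝ) ^ 2 * (1 / (n : ℝ) ^ 4) = 1 / (n : ℝ) ^ 2 := by field_simp
      rw [e1]
      apply one_div_le_one_div_of_le hn0
      exact le_self_pow₀ hn1 (by norm_num)
    have hw : ∀ u : ℝ, 0 < (fun u : ℝ => Real.exp (u ^ (-γ))) u := fun u => Real.exp_pos _
    have hm : Measurable (fun u : ℝ => Real.exp (u ^ (-γ))) := by fun_prop
    rw [Hv.avg_eq, Hv.avg_eq]
    apply avgw_inter hw hm (A := fun T => Real.sqrt (n / Hv.yy γ n) / ((n : ℝ) ^ δ) ^ 3 ≤ T.diam)
      (B := fun T => (n : ℝ) ^ (γ - ε) ≤ (T.diam : ℝ) ∧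
        (T.diam : ℝ) ≤ (n : ℝ) ^ (1 - 2 * γ + ε)) _ _ (by linarith)
    · rintro T _ h1 ⟨_, h2⟩
      refine ⟨?_, h2⟩
      refine le_trans ?_ h1
      have hyp := H.y_pos
      have e1 : (n : ℝ) ^ (1 - γ - δ) ≤ n / Hv.yy γ n := by
        rw [le_div_iff₀ hyp]
        calc (n : ℝ) ^ (1 - γ - δ) * Hv.yy γ n ≤ (n : ℝ) ^ (1 - γ - δ) * (n : ℝ) ^ (γ + δ) :=
              mul_le_mul_of_nonneg_left hb.2 (by positivity)
          _ = n := by
              rw [← Real.rpow_add hn0]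
              have : 1 - γ - δ + (γ + δ) = 1 := by ring
              rw [this, Real.rpow_one]
      have e2 : (n : ℝ) ^ ((1 - γ - δ) / 2) ≤ Real.sqrt (n / Hv.yy γ n) := by
        apply Real.le_sqrt_of_sq_le
        rw [← Real.rpow_natCast, ← Real.rpow_mul hn0.le]
        have : (1 - γ - δ) / 2 * ((2 : ℕ) : ℝ) = 1 - γ - δ := by push_cast; ring
        rw [this]
        exact e1
      rw [le_div_iff₀ (by positivity)]
      refine le_trans ?_ e2
      rw [← Real.rpow_natCast, ← Real.rpow_mul hn0.le, ← Real.rpow_add hn0]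
      apply Real.rpow_le_rpow_of_exponent_le hn1
      push_cast
      linarith
    · have hlo' : 1 - 1 / Real.log n ≤ avgw (Hv.wt γ (1 / (n : ℝ) ^ 4) (n * Hv.yy γ n)) n
          (fun T => Real.sqrt (n / Hv.yy γ n) / ((n : ℝ) ^ δ) ^ 3 ≤ T.diam) := hlo
      linarith
  · filter_upwards with n
    exact avg_le_one γ n _

end

end Pool.Agent.TH972.H
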