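import Pool.Agent.TH972.Num2
import Pool.Agent.TH972.H.Escape

/-!
# The walk parameters, general weights
-/

set_option autoImplicit false
set_option linter.unusedSectionVars false

namespace Pool.Agent.TH972.H

open Finset MeasureTheory Pool.Agent.W842.RST Filter Topology

noncomputable section

/-- a weight function for the parameter `y` -/
structure WW (n : ℕ) (y : ℝ) where
  /-- the weight function -/
  w : ℝ → ℝ
  w0 : ∀ u, 0 < w u
  wa : Antitone w
  cmp : ∀ u, w ((1 - 1 / y) / n) ≤ w u * Real.exp (n * y * (u - (1 - 1 / y) / n))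
  drop : w ((1 + 1 / y * (1 + 6 * Real.log n)) / n) ≤ w ((1 + 1 / y) / n) * (1 / (n : ℝ) ^ 5)

section

variable {n : ℕ} {x y : ℝ} (H : LB n x y) (W : WW n y)

include H

/-- the walk parameters -/
def PP {n : ℕ} {y : ℝ} (W : WW n y) (R : Finset (Fin n)) (k0 : ℕ) : Prm n where
  w := W.w
  b := n * y
  p1 := (1 + 1 / y * (1 + 6 * Real.log n)) / n
  pt := (1 - 1 / y) / n
  R := R
  k0 := k0
  w0 := W.w0
  wa := W.wa

omit H in
theorem PP_b (R : Finset (Fin n)) (k0 : ℕ) : (PP W R k0).b = n * y := rfl

omit H in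
theorem PP_w (R : Finset (Fin n)) (k0 : ℕ) : (PP W R k0).w = W.w := rfl

omit H in
theorem PP_p1 (R : Finset (Fin n)) (k0 : ℕ) :
    (PP W R k0).p1 = (1 + 1 / y * (1 + 6 * Real.log n)) / n := rfl

omit H in
theorem PP_pt (R : Finset (Fin n)) (k0 : ℕ) : (PP W R k0).pt = (1 - 1 / y) / n := rfl

omit H in
theorem PP_R (R : Finset (Fin n)) (k0 : ℕ) : (PP W R k0).R = R := rfl

omit H in
theorem PP_k0 (R : Finset (Fin n)) (k0 : ℕ) : (PP W R k0).k0 = k0 := rfl

theorem Hl_num (R B : Finset (Fin n)) (k0 : ℕ) (v : Fin n) (hvB : v ∉ B) (hvR : v ∉ R)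
    (hRB : ∀ w ∈ B, w ∉ R) (hr1 : y * x ≤ R.card) (hr2 : (R.card : ℝ) ≤ n / (32 * y))
    (hB : (B.card : ℝ) ≤ n / (32 * y)) :
    2 * qq n y ≤ Ex (fun U => Hl (PP W R k0)
      ((PP W R k0).w (PP W R k0).pt) B v U) := by
  have hy := H.y_pos
  have hyb := H.y_big
  have hn := H.n_pos
  have hnb := H.n_big
  have hL := H.hL
  have hyn := H.y_le
  have hLn := H.L_le_n
  set a : ℝ := 1 / y with ha
  have ha0 : 0 < a := by positivity
  have hay : a * y = 1 := by rw [ha]; field_simp
  have ha1 : a ≤ 1 / 2 := by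
    rw [ha, div_le_div_iff₀ hy (by norm_num)]; linarith
  have hex := explore_num H R B v hvB hvR hRB hr1 hr2 hB
  rw [← ha] at hex
  have key := Ex_Hl_ge (PP W R k0) (p0 := (1 + a) / n) (lam := Real.exp (-2))
    (Rs := 500 * Real.log n) (I := 1 + 3 * a) (b := a / 4) (d := a / 8)
    (by rw [PP_b]; positivity) W.cmp
    (by
      rw [PP_p1, ← ha]
      apply div_le_div_of_nonneg_right _ hn.le
      nlinarith)
    (by positivity) (by rw [div_le_one hn]; linarith) (Real.exp_pos _) (by positivity)
    (by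
      rw [PP_b, PP_pt, ← ha, ← Real.exp_add]
      rw [Real.exp_le_one_iff]
      have : (n : ℝ) * y * ((1 + a) / n - (1 - a) / n) = 2 * (a * y) := by field_simp; ring
      rw [this, hay]; norm_num)
    (by
      rw [PP_b]
      apply le_of_eq
      have : (n : ℝ) * ((1 + a) / n + 2 / (n * y)) = 1 + a + 2 * (1 / y) := by field_simp
      rw [this, ← ha]; ring)
    (by linarith) B v hvB (hh n y) (by rw [PP_R]; linarith) ?_
  · refine le_trans (le_of_eq ?_) key
    unfold qq
    rw [← ha]
    field_simp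
    ring
  · -- the numerical inequality
    have h1 := hh_le H
    have hyL : 1 ≤ y * Real.log n := by nlinarith
    have h2 : ((hh n y : ℝ) + 1) ≤ 19 * (n * n) := by
      have h3 : y * Real.log n ≤ n * n := mul_le_mul H.y_le' hLn (by linarith) hn.le
      nlinarith
    have hI : (1 + 3 * a) ^ (hh n y) ≤ Real.exp (54 * Real.log n) := by
      have h3 : 1 + 3 * a ≤ Real.exp (3 * a) := by
        have := Real.add_one_le_exp (3 * a); linarith
      calc (1 + 3 * a) ^ (hh n y) ≤ Real.exp (3 * a) ^ (hh n y) :=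
            pow_le_pow_left₀ (by positivity) h3 _
        _ = Real.exp (hh n y * (3 * a)) := by rw [← Real.exp_nat_mul]
        _ ≤ Real.exp (54 * Real.log n) := by
            apply Real.exp_le_exp.2
            calc (hh n y : ℝ) * (3 * a) ≤ (16 * y * Real.log n + 2) * (3 * a) :=
                  mul_le_mul_of_nonneg_right h1 (by positivity)
              _ = 48 * Real.log n * (a * y) + 6 * a := by ring
              _ ≤ 54 * Real.log n := by rw [hay]; linarith
    have hR : Real.exp (-(Real.exp (-2) * (500 * Real.log n))) ≤ Real.exp (-(66 * Real.log n)) := by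
      apply Real.exp_le_exp.2
      have h3 : (66:ℝ) / 500 ≤ Real.exp (-2) := by
        rw [Real.exp_neg]
        have := exp_two_le (n := n) H
        rw [le_inv_comm₀ (by norm_num) (Real.exp_pos _)]
        refine this.trans ?_
        norm_num
      nlinarith
    have hn6 : 19 * 8 * y * ((n : ℝ) * n) ≤ Real.exp (12 * Real.log n) := by
      have h3 : Real.exp (12 * Real.log n) = (n : ℝ) ^ 12 := by
        rw [show 12 * Real.log (n : ℝ) = ((12 : ℕ) : ℝ) * Real.log n by norm_num,
              Real.exp_nat_mul, Real.exp_log hn]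
      rw [h3]
      have h4 : 19 * 8 * y * ((n : ℝ) * n) ≤ n * (n * n) := by
        have : 19 * 8 * y ≤ n := by linarith
        exact mul_le_mul_of_nonneg_right this (by positivity)
      refine h4.trans ?_
      calc (n : ℝ) * (n * n) = n ^ 3 := by ring
        _ ≤ n ^ 12 := pow_le_pow_right₀ (by linarith) (by norm_num)
    calc ((hh n y : ℝ) + 1) * (Real.exp (-(Real.exp (-2) * (500 * Real.log n))) *
          (1 + 3 * a) ^ (hh n y)) ≤ (19 * (n * n)) *
          (Real.exp (-(66 * Real.log n)) * Real.exp (54 * Real.log n)) := by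
          apply mul_le_mul h2 _ (by positivity) (by positivity)
          apply mul_le_mul hR hI (by positivity) (Real.exp_pos _).le
      _ = (19 * (n * n)) * Real.exp (-(12 * Real.log n)) := by
          rw [← Real.exp_add]; ring_nf
      _ ≤ a / 8 := by
          rw [Real.exp_neg, ← div_eq_mul_inv, div_le_iff₀ (Real.exp_pos _), ha]
          rw [div_div, div_mul_eq_mul_div, one_mul, le_div_iff₀ (by positivity)]
          linarith

theorem Hm_num (R : Finset (Fin n)) (k0 : ℕ) (hr1 : y * x ≤ R.card)
    (hr2 : (R.card : ℝ) ≤ n / (32 * y)) (hk : (k0 : ℝ) ≤ n / (32 * y)) :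
    ∃ m0 : ℕ, ∀ m, m0 ≤ m → ∀ (B : Finset (Fin n)) (v : Fin n), B.card < k0 →
      (∀ w ∈ B, w ∉ R) → v ∉ B →
      qq n y ≤ Ex (fun U => Hm (PP W R k0)
        ((PP W R k0).w (PP W R k0).pt) B v m U) := by
  have hq := qq_pos H
  have hc0 : 0 ≤ (PP W R k0).w (PP W R k0).pt := ((PP W R k0).w0 _).le
  have hev : ∀ᶠ m in atTop, ∀ i : Finset (Fin n) × Fin n, i.1.card < k0 →
      (∀ w ∈ i.1, w ∉ R) → i.2 ∉ i.1 →
      qq n y ≤ Ex (fun U => Hm (PP W R k0)
        ((PP W R k0).w (PP W R k0).pt) i.1 i.2 m U) := by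
    rw [Filter.eventually_all]
    rintro ⟨B, v⟩
    by_cases hB : B.card < k0 ∧ (∀ w ∈ B, w ∉ R) ∧ v ∉ B
    · by_cases hvR : v ∈ R
      · apply Filter.Eventually.of_forall
        intro m _ _ _
        have h1 : (fun U => Hm (PP W R k0)
            ((PP W R k0).w (PP W R k0).pt) B v m U) = fun _ => (1:ℝ) := by
          funext U
          unfold Hm
          cases m with
          | zero => unfold hit; rw [if_pos (show v ∈ (PP W R k0).R from hvR)]
          | succ m => unfold hit; rw [if_pos (show v ∈ (PP W R k0).R from hvR)]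
        simp only
        rw [h1, Ex_const]
        have hy := H.y_big
        have hL := H.hL
        unfold qq
        rw [div_div, div_le_one (by positivity)]
        nlinarith
      · have h2 := Hl_num H W R B k0 v hB.2.2 hvR hB.2.1 hr1 hr2 (by
          refine le_trans ?_ hk
          exact_mod_cast hB.1.le)
        have h3 := Ex_Hm_tendsto (PP W R k0) hc0 B v
        have h4 := h3.eventually_const_le (show qq n y < _ by linarith)
        filter_upwards [h4] with m hm _ _ _
        exact hm
    · apply Filter.Eventually.of_forall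
      intro m h1 h2 h3
      exact absurd ⟨h1, h2, h3⟩ hB
  obtain ⟨m0, hm0⟩ := Filter.eventually_atTop.1 hev
  exact ⟨m0, fun m hm B v h1 h2 h3 => hm0 m hm (B, v) h1 h2 h3⟩

end

end

end Pool.Agent.TH972.H
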